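import Pool.Agent.N575.PA.Tool

/-!
# Padic linear forms approximated by the integer vectors of a thin set
-/

set_option autoImplicit false

namespace Pool.Agent.N575.PA

open Filter Topology MeasureTheory Finset Classical
open scoped ENNReal NNReal
open Pool.Agent.N671.DA (Thin box_fin)
open Pool.Agent.R479.DB (dimH_limsup)

/-- `|∑_i v_i α_(i,j) - β_j|_p ≤ r` for all `j` -/
def PNear {p : ℕ} [Fact p.Prime] {k m : ℕ} (α : Fin k × Fin m → ℤ_[p]) (β : Fin m → ℤ_[p]) (v : Fin k → ℤ) (r : ℝ) :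
    Prop :=
  ∀ j, ‖∑ i, (v i : ℤ_[p]) * α (i, j) - β j‖ ≤ r

/-- the matrices that nearly solve the congruence for `v` and are close to a given matrix off one row -/
def Piece {p : ℕ} [Fact p.Prime] {k m : ℕ} (β : Fin m → ℤ_[p]) (i0 : Fin k) (v : Fin k → ℤ) (r : ℝ) (n : ℕ)
    (a : {i : Fin k // i ≠ i0} × Fin m → Fin (p ^ n)) : Set (Fin k × Fin m → ℤ_[p]) :=
  {α | PNear α β v r ∧ ∀ i : {i : Fin k // i ≠ i0}, ∀ j, ‖α (i.1, j) - (((a (i, j) : ℕ)) : ℤ_[p])‖ ≤ ((p : ℝ) ^ n)⁻¹}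

lemma piece_diam {p : ℕ} [Fact p.Prime] {k m : ℕ} (β : Fin m → ℤ_[p]) (i0 : Fin k) (v : Fin k → ℤ)
    (hv : ¬ (p : ℤ) ∣ v i0) {r : ℝ} (hr : 0 < r) {n : ℕ} (hn : ((p : ℝ) ^ n)⁻¹ ≤ r)
    (a : {i : Fin k // i ≠ i0} × Fin m → Fin (p ^ n)) :
    Metric.ediam (Piece β i0 v r n a) ≤ ENNReal.ofReal r := by
  refine Metric.ediam_le_of_forall_dist_le fun x hx y hy => ?_
  have hun : ‖((v i0 : ℤ) : ℤ_[p])‖ = 1 := by
    apply le_antisymm (PadicInt.norm_le_one _)
    by_contra hcon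
    rw [not_le] at hcon
    exact hv ((PadicInt.norm_int_lt_one_iff_dvd _).1 hcon)
  have hoff : ∀ (i : {i : Fin k // i ≠ i0}) (j : Fin m), ‖x (i.1, j) - y (i.1, j)‖ ≤ r := by
    intro i j
    have h1 := hx.2 i j
    have h2 := hy.2 i j
    have e : x (i.1, j) - y (i.1, j) = (x (i.1, j) - (((a (i, j) : ℕ)) : ℤ_[p])) -
        (y (i.1, j) - (((a (i, j) : ℕ)) : ℤ_[p])) := by ring
    rw [e]
    refine (PadicInt.nonarchimedean _ _).trans' ?_ |>.trans (max_le (h1.trans hn) ((norm_neg _).le.trans (h2.trans hn)))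
    rw [sub_eq_add_neg]
  rw [dist_pi_le_iff hr.le]
  rintro ⟨i, j⟩
  rw [dist_eq_norm]
  by_cases hi : i = i0
  · subst hi
    have h1 := hx.1 j
    have h2 := hy.1 j
    have e : (v i : ℤ_[p]) * (x (i, j) - y (i, j)) = (∑ l, (v l : ℤ_[p]) * x (l, j) - β j) -
        (∑ l, (v l : ℤ_[p]) * y (l, j) - β j) - ∑ l ∈ univ.erase i, (v l : ℤ_[p]) * (x (l, j) - y (l, j)) := by
      rw [← add_sum_erase _ (fun l => (v l : ℤ_[p]) * x (l, j)) (mem_univ i),
        ← add_sum_erase _ (fun l => (v l : ℤ_[p]) * y (l, j)) (mem_univ i)]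
      simp only [mul_sub, sum_sub_distrib]
      ring
    have hsum : ‖∑ l ∈ univ.erase i, (v l : ℤ_[p]) * (x (l, j) - y (l, j))‖ ≤ r := by
      apply IsUltrametricDist.norm_sum_le_of_forall_le_of_nonneg hr.le
      intro l hl
      rw [norm_mul]
      have h3 := hoff ⟨l, ne_of_mem_erase hl⟩ j
      calc ‖((v l : ℤ) : ℤ_[p])‖ * ‖x (l, j) - y (l, j)‖ ≤ 1 * r :=
            mul_le_mul (PadicInt.norm_le_one _) h3 (norm_nonneg _) zero_le_one
        _ = r := one_mul r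
    have h4 : ‖(v i : ℤ_[p]) * (x (i, j) - y (i, j))‖ ≤ r := by
      rw [e]
      have h5 : ‖(∑ l, (v l : ℤ_[p]) * x (l, j) - β j) - (∑ l, (v l : ℤ_[p]) * y (l, j) - β j)‖ ≤ r := by
        rw [sub_eq_add_neg]
        exact (PadicInt.nonarchimedean _ _).trans (max_le h1 ((norm_neg _).le.trans h2))
      rw [sub_eq_add_neg]
      exact (PadicInt.nonarchimedean _ _).trans (max_le h5 ((norm_neg _).le.trans hsum))
    rwa [norm_mul, hun, one_mul] at h4
  · exact hoff ⟨i, hi⟩ j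

/-- **Core.** One coordinate `i0` of the vectors is not divisible by `p`. -/
theorem forms_core {p : ℕ} [Fact p.Prime] {k m : ℕ} (i0 : Fin k) (W : Set (Fin k → ℤ)) (hW0 : ∀ v ∈ W, ¬ (p : ℤ) ∣ v i0)
    {s : ℝ} (hs : 0 ≤ s) (hW : Thin W s) {τ : ℝ} (hτ : 0 < τ) (β : Fin m → ℤ_[p]) {c : ℝ} (hc : 0 < c) :
    dimH {α : Fin k × Fin m → ℤ_[p] | {v : Fin k → ℤ | v ∈ W ∧ PNear α β v (c * (max 1 ‖v‖) ^ (-τ))}.Infinite} ≤
      ENNReal.ofReal (((k : ℝ) - 1) * m + s / τ) := by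
  have hp : p.Prime := Fact.out
  have hk : 1 ≤ k := Nat.one_le_iff_ne_zero.2 fun h => by subst h; exact i0.elim0
  have hk1 : (1 : ℝ) ≤ k := by exact_mod_cast hk
  have hM0 : (0 : ℝ) ≤ ((k : ℝ) - 1) * m := mul_nonneg (by linarith) (Nat.cast_nonneg m)
  apply ENNReal.le_of_forall_pos_le_add
  intro ε hε _
  have hε' : (0 : ℝ) < ε := by exact_mod_cast hε
  rw [← ENNReal.ofReal_coe_nnreal (p := ε), ← ENNReal.ofReal_add (by positivity) hε'.le]
  obtain ⟨M, hM⟩ : ∃ M : ℝ, M = ((k : ℝ) - 1) * m := ⟨_, rfl⟩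
  rw [← hM] at hM0 ⊢
  obtain ⟨D, hD⟩ : ∃ D : ℝ, D = M + s / τ + ε := ⟨_, rfl⟩
  rw [← hD]
  have hD0 : 0 < D := by rw [hD]; positivity
  have hDM : 0 < D - M := by rw [hD]; have : 0 ≤ s / τ := by positivity
                             linarith
  have hDτ : (D - M) * τ = s + ε * τ := by
    rw [hD]
    have : s / τ * τ = s := div_mul_cancel₀ _ hτ.ne'
    nlinarith
  obtain ⟨H, hH⟩ : ∃ H : (Fin k → ℤ) → ℝ, H = fun v => max 1 ‖v‖ := ⟨_, rfl⟩
  have hH1 : ∀ v, 1 ≤ H v := fun v => by rw [hH]; exact le_max_left _ _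
  have hpos : ∀ v, 0 < H v := fun v => lt_of_lt_of_le one_pos (hH1 v)
  obtain ⟨r, hr⟩ : ∃ r : (Fin k → ℤ) → ℝ, r = fun v => c * (H v) ^ (-τ) := ⟨_, rfl⟩
  have hr0 : ∀ v, 0 < r v := fun v => by
    rw [hr]
    have := hpos v
    positivity
  have hrc : ∀ v, r v ≤ c := fun v => by
    rw [hr]
    have h1 : (H v) ^ (-τ) ≤ 1 := by
      rw [Real.rpow_neg (hpos v).le]
      exact inv_le_one_of_one_le₀ (Real.one_le_rpow (hH1 v) hτ.le)
    simp only
    nlinarith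
  choose n hn1 hn2 using fun v => exists_pow hp (hr0 v)
  -- the index set
  have hlim := dimH_limsup (X := Fin k × Fin m → ℤ_[p])
    (ι := Σ v : W, {i : Fin k // i ≠ i0} × Fin m → Fin (p ^ n v.1))
    (fun t => Piece β i0 t.1.1 (r t.1.1) (n t.1.1) t.2) (fun t => r t.1.1) (fun t => hr0 _)
    (fun t => piece_diam β i0 t.1.1 (hW0 _ t.1.2) (hr0 _) (hn1 _) t.2) hD0 (by
      rw [summable_sigma_of_nonneg (fun t => Real.rpow_nonneg (hr0 _).le _)]
      refine ⟨fun v => ((hasSum_fintype _).summable), ?_⟩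
      simp only [tsum_fintype, sum_const, card_univ, Fintype.card_fun, Fintype.card_fin, Fintype.card_prod, nsmul_eq_mul]
      have hcard : Fintype.card {i : Fin k // i ≠ i0} = k - 1 := by
        rw [Fintype.card_subtype_compl, Fintype.card_fin, Fintype.card_subtype_eq]
      rw [hcard]
      obtain ⟨C, hC⟩ := thin_count hW (ε * τ / 2) (by positivity)
      have h2 := Pool.Agent.R479.DA.summable_heights (ι := W) (fun v => H v.1)
        (fun v => hH1 v.1) (s := s + ε * τ / 2) (p := (D - M) * τ) (C := C)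
        (by rw [hDτ]; nlinarith [mul_pos hε' hτ]) (by positivity) (by
          intro B hB
          obtain ⟨hfin, hle⟩ := hC B hB
          have hinj : Set.InjOn (Subtype.val : W → Fin k → ℤ) {x | H x.1 ≤ B} :=
            Subtype.val_injective.injOn
          have himg : (Subtype.val : W → Fin k → ℤ) '' {x | H x.1 ≤ B} = {v | v ∈ W ∧ max 1 ‖v‖ ≤ B} := by
            rw [hH]
            ext t
            constructor
            · rintro ⟨u, hu, rfl⟩
              exact ⟨u.2, hu⟩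
            · rintro ⟨ht, htX⟩
              exact ⟨⟨t, ht⟩, htX, rfl⟩
          refine ⟨Set.Finite.of_finite_image (by rw [himg]; exact hfin) hinj, ?_⟩
          rw [← hinj.ncard_image, himg]
          exact hle)
      refine Summable.of_nonneg_of_le (fun v => ?_) (fun v => ?_)
        (h2.mul_left ((p : ℝ) ^ M * (c + 1) ^ M * c ^ (D - M)))
      · exact mul_nonneg (Nat.cast_nonneg _) (Real.rpow_nonneg (hr0 _).le _)
      · have hp0 : (0 : ℝ) < p := by exact_mod_cast hp.pos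
        have e1 : ((((p ^ n v.1) ^ ((k - 1) * m) : ℕ)) : ℝ) = ((p : ℝ) ^ n v.1) ^ M := by
          push_cast
          rw [← Real.rpow_natCast ((p : ℝ) ^ n v.1), hM]
          congr 1
          push_cast [Nat.cast_sub hk]
          ring
        have e2 : ((p : ℝ) ^ n v.1) ^ M ≤ (p * ((c + 1) / r v.1)) ^ M := by
          apply Real.rpow_le_rpow (by positivity) _ hM0
          refine (hn2 v.1).trans ?_
          apply mul_le_mul_of_nonneg_left _ hp0.le
          have := hr0 v.1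
          rw [le_div_iff₀ this, add_mul, one_div, inv_mul_cancel₀ this.ne', one_mul]
          linarith [hrc v.1]
        have e3 : (p * ((c + 1) / r v.1)) ^ M = (p : ℝ) ^ M * (c + 1) ^ M * (r v.1) ^ (-M) := by
          have := hr0 v.1
          rw [Real.mul_rpow hp0.le (by positivity), Real.div_rpow (by positivity) this.le, Real.rpow_neg this.le]
          ring
        have e4 : (r v.1) ^ (-M) * (r v.1) ^ D = (r v.1) ^ (D - M) := by
          rw [← Real.rpow_add (hr0 v.1)]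
          congr 1
          ring
        have e5 : (r v.1) ^ (D - M) = c ^ (D - M) * (H v.1) ^ (-((D - M) * τ)) := by
          rw [hr]
          have := hpos v.1
          simp only
          rw [Real.mul_rpow hc.le (by positivity), ← Real.rpow_mul this.le]
          congr 2
          ring
        rw [e1]
        calc ((p : ℝ) ^ n v.1) ^ M * r v.1 ^ D ≤ ((p : ℝ) ^ M * (c + 1) ^ M * (r v.1) ^ (-M)) * r v.1 ^ D := by
              rw [← e3]
              exact mul_le_mul_of_nonneg_right e2 (Real.rpow_nonneg (hr0 _).le _)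
          _ = (p : ℝ) ^ M * (c + 1) ^ M * c ^ (D - M) * H v.1 ^ (-((D - M) * τ)) := by
              rw [mul_assoc, e4, e5]
              ring)
  refine le_trans (dimH_mono ?_) hlim
  intro α hα
  simp only [Set.mem_ofPred_eq] at hα ⊢
  -- the matrix of the residues
  have hres : ∀ v : W, PNear α β v.1 (r v.1) → ∃ t : Σ v : W, {i : Fin k // i ≠ i0} × Fin m → Fin (p ^ n v.1),
      t.1 = v ∧ α ∈ Piece β i0 t.1.1 (r t.1.1) (n t.1.1) t.2 := by
    intro v hv
    refine ⟨⟨v, fun ij => ⟨(α (ij.1.1, ij.2)).appr (n v.1), PadicInt.appr_lt _ _⟩⟩, rfl, hv, fun i j => ?_⟩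
    have h := PadicInt.appr_spec (n v.1) (α (i.1, j))
    rw [← PadicInt.norm_le_pow_iff_mem_span_pow] at h
    simpa using h
  intro hfin
  apply hα
  have hset : {v : Fin k → ℤ | v ∈ W ∧ PNear α β v (c * (max 1 ‖v‖) ^ (-τ))} ⊆
      (fun t : (Σ v : W, {i : Fin k // i ≠ i0} × Fin m → Fin (p ^ n v.1)) => t.1.1) ''
        {t | α ∈ Piece β i0 t.1.1 (r t.1.1) (n t.1.1) t.2} := by
    rintro v ⟨hvW, hv⟩
    have hv' : PNear α β v (r v) := by
      rw [hr, hH]
      exact hv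
    obtain ⟨t, ht1, ht2⟩ := hres ⟨v, hvW⟩ hv'
    refine ⟨t, ht2, ?_⟩
    show (t.1 : Fin k → ℤ) = v
    rw [ht1]
  exact (hfin.image _).subset hset

/-- **Padic linear forms.** Let `W` be a thin set of integer vectors. For all padic matrices `α` outside a set of dimension
at most `(k - 1) m + s / τ` and all `c`, all large integer vectors `v`, not divisible by `p`, with
`|(v α)_j - β_j|_p ≤ c |v| ^ (-τ)` are not in `W`. (`τ = k / m`, `β = 0`: all best approximation vectors.) -/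
theorem padic_forms (p : ℕ) [Fact p.Prime] {k : ℕ} (W : Set (Fin k → ℤ)) {s : ℝ} (hs : 0 ≤ s) (hW : Thin W s)
    {m : ℕ} (β : Fin m → ℤ_[p]) {τ : ℝ} (hτ : 0 < τ) :
    ∃ E : Set (Fin k × Fin m → ℤ_[p]), dimH E ≤ ENNReal.ofReal (((k : ℝ) - 1) * m + s / τ) ∧
      ∀ α, α ∉ E → ∀ c : ℝ, ∃ Q : ℝ, ∀ v : Fin k → ℤ, Q ≤ ‖v‖ → (∃ i, ¬ (p : ℤ) ∣ v i) → PNear α β v (c * ‖v‖ ^ (-τ)) →
        v ∉ W := by
  have hV : ∀ i0 : Fin k, Thin {v | v ∈ W ∧ ¬ (p : ℤ) ∣ v i0} s := by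
    intro i0 ε hε
    obtain ⟨C, hC⟩ := hW ε hε
    refine ⟨C, fun X hX => le_trans ?_ (hC X hX)⟩
    have hsub : {q : Fin k → ℤ | q ∈ {v | v ∈ W ∧ ¬ (p : ℤ) ∣ v i0} ∧ ∀ i, |(q i : ℝ)| ≤ X} ⊆
        {q : Fin k → ℤ | q ∈ W ∧ ∀ i, |(q i : ℝ)| ≤ X} := by
      rintro q ⟨h1, h2⟩
      exact ⟨h1.1, h2⟩
    exact_mod_cast Set.ncard_le_ncard hsub ((box_fin (ι := Fin k) X).subset fun q hq => hq.2)
  refine ⟨⋃ (i0 : Fin k) (c : ℕ), {α : Fin k × Fin m → ℤ_[p] | {v : Fin k → ℤ | v ∈ {v | v ∈ W ∧ ¬ (p : ℤ) ∣ v i0} ∧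
    PNear α β v (((c : ℝ) + 1) * (max 1 ‖v‖) ^ (-τ))}.Infinite}, ?_, fun α hα c => ?_⟩
  · rw [dimH_iUnion]
    refine iSup_le fun i0 => ?_
    rw [dimH_iUnion]
    refine iSup_le fun c => ?_
    exact forms_core i0 _ (fun v hv => hv.2) hs (hV i0) hτ β (by positivity)
  · obtain ⟨c', hc'⟩ := exists_nat_ge c
    have hfin : ∀ i0 : Fin k, {v : Fin k → ℤ | v ∈ {v | v ∈ W ∧ ¬ (p : ℤ) ∣ v i0} ∧
        PNear α β v (((c' : ℝ) + 1) * (max 1 ‖v‖) ^ (-τ))}.Finite := by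
      intro i0
      by_contra hcon
      exact hα (Set.mem_iUnion.2 ⟨i0, Set.mem_iUnion.2 ⟨c', hcon⟩⟩)
    obtain ⟨B, hB⟩ := ((Set.finite_iUnion hfin).image (fun v : Fin k → ℤ => ‖v‖)).bddAbove
    refine ⟨max 1 (B + 1), fun v hv hex h1 hcon => ?_⟩
    obtain ⟨i0, hi0⟩ := hex
    have hv1 : 1 ≤ ‖v‖ := (le_max_left _ _).trans hv
    have hv2 : B + 1 ≤ ‖v‖ := (le_max_right _ _).trans hv
    have : ‖v‖ ≤ B := hB ⟨v, Set.mem_iUnion.2 ⟨i0, ⟨hcon, hi0⟩, ?_⟩, rfl⟩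
    · linarith
    · rw [max_eq_right hv1]
      intro j
      have h0 : (0 : ℝ) ≤ ‖v‖ ^ (-τ) := by positivity
      exact (h1 j).trans (mul_le_mul_of_nonneg_right (by linarith) h0)

end Pool.Agent.N575.PA
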