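import Pool.Agent.N575.PA.Forms
import Pool.Agent.N671.DA.Win
import Pool.Agent.N671.DA.Tup

/-!
# Padic approximation by natural numbers and tuples of natural numbers of a thin set
-/

set_option autoImplicit false

namespace Pool.Agent.N575.PA

open Finset Classical
open Pool.Agent.N671.DA (Thin box_fin Expanding NearG nearG_count thin_natAbs)

/-- the count of a thin set of natural numbers, as in `Pool.Agent.N671.DA.dim_nat` -/
def ThinNat (P : Set ℕ) (σ : ℝ) : Prop :=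
  ∀ ε : ℝ, 0 < ε → ∃ C : ℝ, ∀ X : ℕ, 1 ≤ X → (((Icc 1 X).filter (fun q => q ∈ P)).card : ℝ) ≤ C * (X : ℝ) ^ (σ + ε)

/-- the integer vectors with one coordinate in a thin set of natural numbers, up to the sign -/
lemma thin_coord {P : Set ℕ} {σ : ℝ} (hσ : 0 ≤ σ) (hP : ThinNat P σ) {k : ℕ} (i0 : Fin k) :
    Thin {v : Fin k → ℤ | (v i0).natAbs ∈ P ∨ v i0 = 0} ((k : ℝ) - 1 + σ) := by
  intro ε hε
  obtain ⟨C, hC⟩ := hP ε hε
  have hk : 1 ≤ k := Nat.one_le_iff_ne_zero.2 fun h => by subst h; exact i0.elim0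
  refine ⟨3 ^ (k - 1) * (2 * |C| + 1), fun X hX => ?_⟩
  have hX1 : 1 ≤ ⌊X⌋₊ := Nat.le_floor (by exact_mod_cast hX)
  have hXf : (⌊X⌋₊ : ℝ) ≤ X := Nat.floor_le (by linarith)
  have hX0 : (0 : ℝ) < X := by linarith
  obtain ⟨T, hT⟩ : ∃ T : ℕ, T = ⌊X⌋₊ := ⟨_, rfl⟩
  rw [← hT] at hX1 hXf
  have hT1 : (1 : ℝ) ≤ T := by exact_mod_cast hX1
  obtain ⟨A, hA⟩ : ∃ A : Finset ℤ, A = ((Icc 1 T).filter (fun q => q ∈ P)).image (fun q : ℕ => (q : ℤ)) ∪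
    ((Icc 1 T).filter (fun q => q ∈ P)).image (fun q : ℕ => -(q : ℤ)) ∪ {0} := ⟨_, rfl⟩
  have hsub : {q : Fin k → ℤ | q ∈ {v : Fin k → ℤ | (v i0).natAbs ∈ P ∨ v i0 = 0} ∧ ∀ i, |(q i : ℝ)| ≤ X} ⊆
      ((Fintype.piFinset (fun i : Fin k => if i = i0 then A else Icc (-(T : ℤ)) T) : Finset (Fin k → ℤ)) :
        Set (Fin k → ℤ)) := by
    rintro q ⟨h1, h2⟩
    rw [mem_coe, Fintype.mem_piFinset]
    intro i
    have h3 : |q i| ≤ (T : ℤ) := by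
      have h4 : (((q i).natAbs : ℕ) : ℝ) ≤ X := by
        rw [Nat.cast_natAbs, Int.cast_abs]
        exact h2 i
      have h5 := Nat.le_floor h4
      rw [← hT] at h5
      rw [Int.abs_eq_natAbs]
      exact_mod_cast h5
    by_cases hi : i = i0
    · subst hi
      rw [if_pos rfl, hA, mem_union, mem_union, mem_singleton, mem_image, mem_image]
      by_cases h0 : q i = 0
      · exact Or.inr h0
      · left
        rcases h1 with h1 | h1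
        · have h6 : (q i).natAbs ∈ (Icc 1 T).filter (fun q => q ∈ P) := by
            rw [mem_filter, mem_Icc]
            refine ⟨⟨Nat.one_le_iff_ne_zero.2 (fun h => h0 (Int.natAbs_eq_zero.1 h)), ?_⟩, h1⟩
            rw [Int.abs_eq_natAbs] at h3
            exact_mod_cast h3
          rcases le_total 0 (q i) with h7 | h7
          · left
            exact ⟨_, h6, by simp [Int.natAbs_of_nonneg h7]⟩
          · right
            refine ⟨_, h6, ?_⟩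
            rw [Int.ofNat_natAbs_of_nonpos h7]
            ring
        · exact absurd h1 h0
    · rw [if_neg hi, mem_Icc]
      exact abs_le.1 h3
  have h3 := Set.ncard_le_ncard hsub (Finset.finite_toSet _)
  rw [Set.ncard_coe_finset, Fintype.card_piFinset] at h3
  have hAc : ((A.card : ℕ) : ℝ) ≤ (2 * |C| + 1) * X ^ (σ + ε) := by
    have h4 : A.card ≤ ((Icc 1 T).filter (fun q => q ∈ P)).card + ((Icc 1 T).filter (fun q => q ∈ P)).card + 1 := by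
      rw [hA]
      refine (card_union_le _ _).trans (Nat.add_le_add ((card_union_le _ _).trans (Nat.add_le_add card_image_le
        card_image_le)) (by simp))
    have h5 := hC T hX1
    have h6 : (T : ℝ) ^ (σ + ε) ≤ X ^ (σ + ε) := Real.rpow_le_rpow (by linarith) hXf (by linarith)
    have h7 : (1 : ℝ) ≤ X ^ (σ + ε) := Real.one_le_rpow hX (by linarith)
    have h8 : (((Icc 1 T).filter (fun q => q ∈ P)).card : ℝ) ≤ |C| * X ^ (σ + ε) :=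
      h5.trans (mul_le_mul (le_abs_self _) h6 (by positivity) (abs_nonneg _))
    have h9 : ((A.card : ℕ) : ℝ) ≤ (((Icc 1 T).filter (fun q => q ∈ P)).card : ℝ) +
        (((Icc 1 T).filter (fun q => q ∈ P)).card : ℝ) + 1 := by exact_mod_cast h4
    nlinarith
  have hprod : ∏ i : Fin k, ((if i = i0 then A else Icc (-(T : ℤ)) T) : Finset ℤ).card = A.card * (2 * T + 1) ^ (k - 1) := by
    rw [← Finset.mul_prod_erase _ _ (mem_univ i0), if_pos rfl]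
    congr 1
    have h5a : (univ.erase i0).card = k - 1 := by
      rw [card_erase_of_mem (mem_univ i0), card_univ, Fintype.card_fin]
    rw [← h5a, ← prod_const]
    refine prod_congr rfl fun x hx => ?_
    rw [if_neg (ne_of_mem_erase hx), Int.card_Icc]
    omega
  rw [hprod] at h3
  have h4 : ((2 * (T : ℝ) + 1)) ^ (k - 1) ≤ 3 ^ (k - 1) * X ^ (k - 1) := by
    rw [← mul_pow]
    apply pow_le_pow_left₀ (by positivity)
    linarith
  have h5 : X ^ (k - 1) * X ^ (σ + ε) = X ^ ((k : ℝ) - 1 + σ + ε) := by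
    rw [← Real.rpow_natCast, ← Real.rpow_add hX0]
    congr 1
    rw [Nat.cast_sub hk, Nat.cast_one]
    ring
  calc (({q : Fin k → ℤ | q ∈ {v : Fin k → ℤ | (v i0).natAbs ∈ P ∨ v i0 = 0} ∧ ∀ i, |(q i : ℝ)| ≤ X}.ncard : ℕ) : ℝ)
      ≤ (A.card : ℝ) * (2 * (T : ℝ) + 1) ^ (k - 1) := by exact_mod_cast h3
    _ ≤ ((2 * |C| + 1) * X ^ (σ + ε)) * (3 ^ (k - 1) * X ^ (k - 1)) :=
        mul_le_mul hAc h4 (by positivity) (by positivity)
    _ = 3 ^ (k - 1) * (2 * |C| + 1) * (X ^ (k - 1) * X ^ (σ + ε)) := by ring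
    _ = 3 ^ (k - 1) * (2 * |C| + 1) * X ^ ((k : ℝ) - 1 + σ + ε) := by rw [h5]

/-- **Padic integers and linear forms, natural numbers.** Let `P` be a thin set of natural numbers.
(1) For all padic integers `x` outside a set of dimension at most `σ / τ` and all `c`, all large natural numbers `q` with
`|x - q|_p ≤ c q ^ (-τ)` are not in `P`.
(2) For all padic matrices `α` with `k` rows and `m` columns outside a set of dimension at most
`(k - 1) m + (k - 1 + σ) / τ` and all `c`, for all large integer vectors `v`, not divisible by `p`, with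
`|(v α)_j - β_j|_p ≤ c |v| ^ (-τ)` the numbers `|v_1|, ..., |v_k|` are positive and not in `P`. -/
theorem padic_nat (p : ℕ) [Fact p.Prime] (P : Set ℕ) {σ : ℝ} (hσ : 0 ≤ σ) (hP : ThinNat P σ) {τ : ℝ} (hτ : 0 < τ) :
    (∃ E : Set ℤ_[p], dimH E ≤ ENNReal.ofReal (σ / τ) ∧
      ∀ x, x ∉ E → ∀ c : ℝ, ∃ Q : ℕ, ∀ q : ℕ, Q ≤ q → ‖x - (q : ℤ_[p])‖ ≤ c * (q : ℝ) ^ (-τ) → q ∉ P) ∧
    ∀ (k m : ℕ) (β : Fin m → ℤ_[p]),
      ∃ E : Set (Fin k × Fin m → ℤ_[p]), dimH E ≤ ENNReal.ofReal (((k : ℝ) - 1) * m + ((k : ℝ) - 1 + σ) / τ) ∧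
        ∀ α, α ∉ E → ∀ c : ℝ, ∃ Q : ℝ, ∀ v : Fin k → ℤ, Q ≤ ‖v‖ → (∃ i, ¬ (p : ℤ) ∣ v i) →
          PNear α β v (c * ‖v‖ ^ (-τ)) → ∀ i, v i ≠ 0 ∧ (v i).natAbs ∉ P := by
  constructor
  · refine ⟨⋃ c : ℕ, {x : ℤ_[p] | {q : ℕ | q ∈ P ∧
      dist x (q : ℤ_[p]) ≤ ((c : ℝ) + 1) * (max 1 (q : ℝ)) ^ (-τ)}.Infinite}, ?_, fun x hx c => ?_⟩
    · rw [dimH_iUnion]
      refine iSup_le fun c => ?_
      refine dimH_approx_c (X := ℤ_[p]) (K := ℕ) (fun q => (q : ℤ_[p])) P (fun q => max 1 (q : ℝ))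
        (fun v => le_max_left _ _) hσ hτ ?_ (by positivity)
      intro ε hε
      obtain ⟨C, hC⟩ := hP ε hε
      refine ⟨|C| + 1, fun B hB => ?_⟩
      have hB1 : 1 ≤ ⌊B⌋₊ := Nat.le_floor (by exact_mod_cast hB)
      have hBf : (⌊B⌋₊ : ℝ) ≤ B := Nat.floor_le (by linarith)
      have hsub : {q : ℕ | q ∈ P ∧ max 1 (q : ℝ) ≤ B} ⊆ (((Icc 1 ⌊B⌋₊).filter (fun q => q ∈ P) ∪ {0} : Finset ℕ) : Set ℕ) := by
        rintro q ⟨h1, h2⟩
        rw [mem_coe, mem_union, mem_filter, mem_Icc, mem_singleton]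
        rcases Nat.eq_zero_or_pos q with h0 | h0
        · exact Or.inr h0
        · exact Or.inl ⟨⟨h0, Nat.le_floor ((le_max_right _ _).trans h2)⟩, h1⟩
      refine ⟨(Finset.finite_toSet _).subset hsub, ?_⟩
      have h1 := Set.ncard_le_ncard hsub (Finset.finite_toSet _)
      rw [Set.ncard_coe_finset] at h1
      have h2 : (({q : ℕ | q ∈ P ∧ max 1 (q : ℝ) ≤ B}.ncard : ℕ) : ℝ) ≤
          (((Icc 1 ⌊B⌋₊).filter (fun q => q ∈ P)).card : ℝ) + 1 := by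
        have := h1.trans ((card_union_le _ _).trans (Nat.add_le_add_left (by simp : ({0} : Finset ℕ).card ≤ 1) _))
        exact_mod_cast this
      have h3 := hC ⌊B⌋₊ hB1
      have h4 : (⌊B⌋₊ : ℝ) ^ (σ + ε) ≤ B ^ (σ + ε) :=
        Real.rpow_le_rpow (Nat.cast_nonneg _) hBf (by linarith)
      have h5 : (1 : ℝ) ≤ B ^ (σ + ε) := Real.one_le_rpow hB (by linarith)
      have h6 : (((Icc 1 ⌊B⌋₊).filter (fun q => q ∈ P)).card : ℝ) ≤ |C| * B ^ (σ + ε) :=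
        h3.trans (mul_le_mul (le_abs_self _) h4 (by positivity) (abs_nonneg _))
      nlinarith
    · obtain ⟨c', hc'⟩ := exists_nat_ge c
      have hfin : {q : ℕ | q ∈ P ∧ dist x (q : ℤ_[p]) ≤ ((c' : ℝ) + 1) * (max 1 (q : ℝ)) ^ (-τ)}.Finite := by
        by_contra hcon
        exact hx (Set.mem_iUnion.2 ⟨c', hcon⟩)
      obtain ⟨B, hB⟩ := hfin.bddAbove
      refine ⟨B + 1, fun q hq h1 hcon => ?_⟩
      have hq1 : (1 : ℝ) ≤ q := by exact_mod_cast (by omega : 1 ≤ q)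
      have : q ≤ B := hB ⟨hcon, ?_⟩
      · omega
      · rw [max_eq_right hq1, dist_eq_norm]
        have h0 : (0 : ℝ) ≤ (q : ℝ) ^ (-τ) := by positivity
        exact h1.trans (mul_le_mul_of_nonneg_right (by linarith) h0)
  · intro k m β
    rcases Nat.eq_zero_or_pos k with h0 | hk
    · subst h0
      refine ⟨∅, by simp, fun α _ c => ⟨0, fun v _ h => ?_⟩⟩
      obtain ⟨i, -⟩ := h
      exact i.elim0
    · have hk1 : (1 : ℝ) ≤ k := by exact_mod_cast hk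
      choose E hE hE2 using fun i0 : Fin k => padic_forms p {v : Fin k → ℤ | (v i0).natAbs ∈ P ∨ v i0 = 0}
        (s := (k : ℝ) - 1 + σ) (by linarith) (thin_coord hσ hP i0) β hτ
      refine ⟨⋃ i0, E i0, ?_, fun α hα c => ?_⟩
      · rw [dimH_iUnion]
        exact iSup_le hE
      · have h1 : ∀ i0, α ∉ E i0 := fun i0 h => hα (Set.mem_iUnion.2 ⟨i0, h⟩)
        choose Q hQ using fun i0 => hE2 i0 α (h1 i0) c
        obtain ⟨B, hB⟩ := (Set.finite_range Q).bddAbove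
        refine ⟨B, fun v hv h2 h3 i => ?_⟩
        have h4 := hQ i v ((hB ⟨i, rfl⟩).trans hv) h2 h3
        simp only [Set.mem_ofPred_eq, not_or] at h4
        exact ⟨h4.2, h4.1⟩

/-- **Windows.** `S` has `O_ε (X ^ (s + ε))` elements of height at most `X`, `G` is expanding of growth `d`. The conclusions
of `padic_nat` with `σ = d s + κ` for the natural numbers `q` (and `|v_i|`) such that some element of `S` has a height within
`q ^ κ` of `G q`. -/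
theorem padic_windows (p : ℕ) [Fact p.Prime] {T : Type*} (S : Set T) (h : T → ℝ) {G : ℕ → ℝ} {d : ℝ} (hG : Expanding G d)
    {s κ : ℝ} (hs : 0 ≤ s) (hκ : 0 ≤ κ) (hκ1 : κ ≤ 1)
    (hS : ∀ ε : ℝ, 0 < ε → ∃ C : ℝ, ∀ X : ℝ, 1 ≤ X →
      {t | t ∈ S ∧ h t ≤ X}.Finite ∧ ({t | t ∈ S ∧ h t ≤ X}.ncard : ℝ) ≤ C * X ^ (s + ε))
    {τ : ℝ} (hτ : 0 < τ) :
    (∃ E : Set ℤ_[p], dimH E ≤ ENNReal.ofReal ((d * s + κ) / τ) ∧
      ∀ x, x ∉ E → ∀ c : ℝ, ∃ Q : ℕ, ∀ q : ℕ, Q ≤ q → ‖x - (q : ℤ_[p])‖ ≤ c * (q : ℝ) ^ (-τ) →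
        ∀ t ∈ S, ¬ |h t - G q| ≤ (q : ℝ) ^ κ) ∧
    ∀ (k m : ℕ) (β : Fin m → ℤ_[p]),
      ∃ E : Set (Fin k × Fin m → ℤ_[p]), dimH E ≤ ENNReal.ofReal (((k : ℝ) - 1) * m + ((k : ℝ) - 1 + (d * s + κ)) / τ) ∧
        ∀ α, α ∉ E → ∀ c : ℝ, ∃ Q : ℝ, ∀ v : Fin k → ℤ, Q ≤ ‖v‖ → (∃ i, ¬ (p : ℤ) ∣ v i) →
          PNear α β v (c * ‖v‖ ^ (-τ)) → ∀ i, v i ≠ 0 ∧
            ∀ t ∈ S, ¬ |h t - G (v i).natAbs| ≤ (((v i).natAbs : ℕ) : ℝ) ^ κ := by
  have hd := hG.one_le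
  have hd0 : 0 < d := by linarith
  have hthin : ThinNat (NearG S h G κ) (d * s + κ) := by
    intro ε hε
    obtain ⟨C, hC⟩ := hS (ε / d) (by positivity)
    obtain ⟨K, hK⟩ := nearG_count S h hG (s := s + ε / d) (κ := κ) (by positivity) hκ hκ1 ⟨C, hC⟩
    refine ⟨K, fun X hX => ?_⟩
    have h2 := hK X hX
    have e : d * (s + ε / d) + κ = d * s + κ + ε := by
      field_simp
      ring
    rw [e] at h2
    exact h2
  obtain ⟨⟨E, hE, hE2⟩, h2⟩ := padic_nat p (NearG S h G κ) (σ := d * s + κ) (by positivity) hthin hτ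
  refine ⟨⟨E, hE, fun x hx c => ?_⟩, fun k m β => ?_⟩
  · obtain ⟨Q, hQ⟩ := hE2 x hx c
    exact ⟨Q, fun q hq h1 t ht h3 => hQ q hq h1 ⟨t, ht, h3⟩⟩
  · obtain ⟨E, hE, hE2⟩ := h2 k m β
    refine ⟨E, hE, fun α hα c => ?_⟩
    obtain ⟨Q, hQ⟩ := hE2 α hα c
    exact ⟨Q, fun v hv h0 h1 i => ⟨(hQ v hv h0 h1 i).1, fun t ht h3 => (hQ v hv h0 h1 i).2 ⟨t, ht, h3⟩⟩⟩

/-- **Tuples of natural numbers.** `W` has at most `C T ^ (k - c₀)` elements `w` with `2 ≤ w_i ≤ T` (the hypothesis of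
`Pool.Agent.N733.TG.keep_tuples2` and `Pool.Agent.N671.DA.approx_tuples`, `c₀ ≤ 1`).
(1) For all padic points `x` outside a set of dimension at most `(k - c₀) / τ` and all `c`, all large integer vectors `v` with
`|x_i - v_i|_p ≤ c |v| ^ (-τ)` satisfy `|v_i| ≥ 2` and `(|v_1|, ..., |v_k|) ∉ W`. (2) The same for the vectors not divisible by
`p` with `|(v α)_j - β_j|_p ≤ c |v| ^ (-τ)`, for all `α` outside a set of dimension at most `(k - 1) m + (k - c₀) / τ`. -/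
theorem padic_tuples (p : ℕ) [Fact p.Prime] {k : ℕ} (hk : 1 ≤ k) (W : Set (Fin k → ℕ)) {c₀ C₀ : ℝ} (hc1 : c₀ ≤ 1)
    (hW : ∀ T : ℕ, 1 ≤ T → (({w : Fin k → ℕ | (∀ i, 2 ≤ w i ∧ w i ≤ T) ∧ w ∈ W}.ncard : ℕ) : ℝ) ≤
      C₀ * (T : ℝ) ^ ((k : ℝ) - c₀)) {τ : ℝ} (hτ : 0 < τ) :
    (∃ E : Set (Fin k → ℤ_[p]), dimH E ≤ ENNReal.ofReal (((k : ℝ) - c₀) / τ) ∧
      ∀ x, x ∉ E → ∀ c : ℝ, ∃ Q : ℝ, ∀ v : Fin k → ℤ, Q ≤ ‖v‖ → (∀ i, ‖x i - (v i : ℤ_[p])‖ ≤ c * ‖v‖ ^ (-τ)) →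
        (∀ i, 2 ≤ (v i).natAbs) ∧ (fun i => (v i).natAbs) ∉ W) ∧
    ∀ (m : ℕ) (β : Fin m → ℤ_[p]),
      ∃ E : Set (Fin k × Fin m → ℤ_[p]), dimH E ≤ ENNReal.ofReal (((k : ℝ) - 1) * m + ((k : ℝ) - c₀) / τ) ∧
        ∀ α, α ∉ E → ∀ c : ℝ, ∃ Q : ℝ, ∀ v : Fin k → ℤ, Q ≤ ‖v‖ → (∃ i, ¬ (p : ℤ) ∣ v i) →
          PNear α β v (c * ‖v‖ ^ (-τ)) → (∀ i, 2 ≤ (v i).natAbs) ∧ (fun i => (v i).natAbs) ∉ W := by
  have hk1 : (1 : ℝ) ≤ k := by exact_mod_cast hk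
  have hth := thin_natAbs hk W hc1 hW
  constructor
  · obtain ⟨E, hE, hE2⟩ := padic_vectors p _ (s := (k : ℝ) - c₀) (by linarith) hth hτ
    refine ⟨E, hE, fun x hx c => ?_⟩
    obtain ⟨Q, hQ⟩ := hE2 x hx c
    refine ⟨Q, fun v hv h1 => ?_⟩
    simpa only [Set.mem_ofPred_eq, not_not] using hQ v hv h1
  · intro m β
    obtain ⟨E, hE, hE2⟩ := padic_forms p _ (s := (k : ℝ) - c₀) (by linarith) hth β hτ
    refine ⟨E, hE, fun α hα c => ?_⟩
    obtain ⟨Q, hQ⟩ := hE2 α hα c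
    refine ⟨Q, fun v hv h0 h1 => ?_⟩
    simpa only [Set.mem_ofPred_eq, not_not] using hQ v hv h0 h1

end Pool.Agent.N575.PA
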