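import Mathlib

/-!
# Sets of padic integers of Haar measure zero, and padic approximation by a set with few elements
-/

set_option autoImplicit false

namespace Pool.Agent.N575.PA

open Filter Topology Finset Classical

/-- `E` has Haar measure zero: for every `ε > 0` there are countably many residue classes `a i + p ^ (k i) Z_p` of
total measure `∑ p ^ (- k i) ≤ ε` which cover `E` -/
def HaarNull (p : ℕ) [Fact p.Prime] (E : Set ℤ_[p]) : Prop :=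
  ∀ ε : ℝ, 0 < ε → ∃ a k : ℕ → ℕ, Summable (fun i => ((p : ℝ) ^ k i)⁻¹) ∧ ∑' i, ((p : ℝ) ^ k i)⁻¹ ≤ ε ∧
    ∀ x ∈ E, ∃ i, ‖x - (a i : ℤ_[p])‖ ≤ ((p : ℝ) ^ k i)⁻¹

/-- the ball of radius `ρ` is contained in a residue class of measure at most `p ρ` -/
lemma ball_class (p : ℕ) [Fact p.Prime] {ρ : ℝ} (hρ : 0 < ρ) :
    ∃ k : ℕ, ((p : ℝ) ^ k)⁻¹ ≤ p * ρ ∧ ∀ z : ℤ_[p], ∃ a : ℕ, ∀ x : ℤ_[p], ‖x - z‖ ≤ ρ →
      ‖x - (a : ℤ_[p])‖ ≤ ((p : ℝ) ^ k)⁻¹ := by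
  have hp : p.Prime := Fact.out
  have hp1 : (1 : ℝ) < p := by exact_mod_cast hp.one_lt
  have hp0 : (0 : ℝ) < p := by linarith
  have key : ∃ k : ℕ, ((p : ℝ) ^ k)⁻¹ ≤ p * ρ ∧ ∀ y : ℤ_[p], ‖y‖ ≤ ρ → ‖y‖ ≤ ((p : ℝ) ^ k)⁻¹ := by
    by_cases h1 : 1 ≤ ρ
    · refine ⟨0, ?_, fun y _ => ?_⟩
      · rw [pow_zero, inv_one]
        nlinarith
      · rw [pow_zero, inv_one]
        exact PadicInt.norm_le_one y
    · push Not at h1
      have hex : ∃ n : ℕ, ((p : ℝ) ^ n)⁻¹ ≤ ρ := by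
        obtain ⟨n, hn⟩ := pow_unbounded_of_one_lt (1 / ρ) hp1
        refine ⟨n, ?_⟩
        rw [inv_le_comm₀ (by positivity) hρ, ← one_div]
        exact hn.le
      obtain ⟨n, hn⟩ : ∃ n, n = Nat.find hex := ⟨_, rfl⟩
      have h2 := Nat.find_spec hex
      rw [← hn] at h2
      have hn0 : n ≠ 0 := by
        intro h0
        rw [h0, pow_zero, inv_one] at h2
        linarith
      obtain ⟨l, rfl⟩ := Nat.exists_eq_succ_of_ne_zero hn0
      have h3 := Nat.find_min hex (m := l) (by rw [← hn]; omega)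
      rw [not_le] at h3
      refine ⟨l + 1, h2.trans ?_, fun y hy => ?_⟩
      · nlinarith
      · have h4 : ‖y‖ < ((p : ℝ) ^ l)⁻¹ := lt_of_le_of_lt hy h3
        have h5 : ‖y‖ < (p : ℝ) ^ (-(l : ℤ)) := by rw [zpow_neg, zpow_natCast]; exact h4
        have h6 : ‖y‖ < (p : ℝ) ^ (-((l + 1 : ℕ) : ℤ) + 1) := by
          have e : (-((l + 1 : ℕ) : ℤ) + 1) = -(l : ℤ) := by push_cast; ring
          rw [e]
          exact h5
        have h7 := (PadicInt.norm_le_pow_iff_norm_lt_pow_add_one y (-((l + 1 : ℕ) : ℤ))).2 h6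
        rw [zpow_neg, zpow_natCast] at h7
        exact h7
  obtain ⟨k, hk1, hk2⟩ := key
  refine ⟨k, hk1, fun z => ⟨z.appr k, fun x hx => ?_⟩⟩
  have h1 := PadicInt.appr_spec k z
  rw [← PadicInt.norm_le_pow_iff_mem_span_pow, zpow_neg, zpow_natCast] at h1
  have e : x - ((z.appr k : ℕ) : ℤ_[p]) = (x - z) + (z - ((z.appr k : ℕ) : ℤ_[p])) := by ring
  rw [e]
  exact (PadicInt.nonarchimedean _ _).trans (max_le (hk2 _ hx) h1)

/-- **Borel-Cantelli.** The padic integers in infinitely many balls with a finite sum of the radii have measure zero. -/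
theorem null_limsup (p : ℕ) [Fact p.Prime] (z : ℕ → ℤ_[p]) (ρ : ℕ → ℝ) (h0 : ∀ i, 0 ≤ ρ i) (hs : Summable ρ) :
    HaarNull p {x | {i | 0 < ρ i ∧ ‖x - z i‖ ≤ ρ i}.Infinite} := by
  intro ε hε
  have hp : p.Prime := Fact.out
  have hp1 : (1 : ℝ) < p := by exact_mod_cast hp.one_lt
  have hp0 : (0 : ℝ) < p := by linarith
  -- a tail of the sum
  obtain ⟨M, hM⟩ : ∃ M : ℕ, ∑' i, ρ (i + M) < ε / (2 * p) := by
    have h1 := tendsto_sum_nat_add ρ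
    have h2 := h1.eventually (gt_mem_nhds (show (0 : ℝ) < ε / (2 * p) by positivity))
    exact h2.exists
  obtain ⟨r, hr⟩ : ∃ r : ℕ → ℝ, r = fun i => ρ (i + M) + ε / (4 * p) * (1 / 2) ^ i := ⟨_, rfl⟩
  have hr0 : ∀ i, 0 < r i := by
    intro i
    rw [hr]
    have := h0 (i + M)
    have h3 : 0 < ε / (4 * p) * (1 / 2) ^ i := by positivity
    show 0 < ρ (i + M) + ε / (4 * p) * (1 / 2) ^ i
    linarith
  have hρs : Summable (fun i => ρ (i + M)) := (summable_nat_add_iff M).2 hs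
  have hgs : Summable (fun i : ℕ => ε / (4 * p) * (1 / 2 : ℝ) ^ i) := Summable.mul_left _ summable_geometric_two
  have hrs : Summable r := by rw [hr]; exact hρs.add hgs
  have hrt : ∑' i, r i ≤ ε / p := by
    rw [hr, hρs.tsum_add hgs, tsum_mul_left, tsum_geometric_two]
    have h4 : ε / (4 * p) * 2 = ε / (2 * p) := by field_simp; ring
    have h5 : ε / p = ε / (2 * p) + ε / (2 * p) := by field_simp; ring
    rw [h4, h5]
    linarith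
  choose k hk1 hk2 using fun i => ball_class p (hr0 i)
  choose a ha using fun i => hk2 i (z (i + M))
  have hle : ∀ i, ((p : ℝ) ^ k i)⁻¹ ≤ p * r i := hk1
  have hps : Summable (fun i => (p : ℝ) * r i) := hrs.mul_left _
  have hks : Summable (fun i => ((p : ℝ) ^ k i)⁻¹) := Summable.of_nonneg_of_le (fun i => by positivity) hle hps
  refine ⟨a, k, hks, ?_, fun x hx => ?_⟩
  · calc ∑' i, ((p : ℝ) ^ k i)⁻¹ ≤ ∑' i, (p : ℝ) * r i := hks.tsum_le_tsum hle hps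
      _ = p * ∑' i, r i := tsum_mul_left
      _ ≤ p * (ε / p) := mul_le_mul_of_nonneg_left hrt hp0.le
      _ = ε := by field_simp
  · obtain ⟨i, hi, hMi⟩ := Set.Infinite.exists_gt hx M
    refine ⟨i - M, ha (i - M) x ?_⟩
    have e : i - M + M = i := by omega
    rw [e, hr]
    show _ ≤ ρ (i - M + M) + ε / (4 * p) * (1 / 2) ^ (i - M)
    rw [e]
    have h3 : 0 < ε / (4 * p) * (1 / 2) ^ (i - M) := by positivity
    linarith [hi.2]

/-- Borel-Cantelli for a family over a countable type -/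
theorem null_limsup' {ι : Type*} [Countable ι] [Infinite ι] (p : ℕ) [Fact p.Prime] (z : ι → ℤ_[p]) (ρ : ι → ℝ)
    (h0 : ∀ i, 0 ≤ ρ i) (hs : Summable ρ) :
    HaarNull p {x | {i | 0 < ρ i ∧ ‖x - z i‖ ≤ ρ i}.Infinite} := by
  obtain ⟨e⟩ : Nonempty (ℕ ≃ ι) := nonempty_equiv_of_countable
  have h1 := null_limsup p (z ∘ e) (ρ ∘ e) (fun i => h0 _) ((Equiv.summable_iff e).2 hs)
  have h2 : {x : ℤ_[p] | {i | 0 < ρ i ∧ ‖x - z i‖ ≤ ρ i}.Infinite} =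
      {x | {i | 0 < (ρ ∘ e) i ∧ ‖x - (z ∘ e) i‖ ≤ (ρ ∘ e) i}.Infinite} := by
    ext x
    have h3 : {i | 0 < (ρ ∘ e) i ∧ ‖x - (z ∘ e) i‖ ≤ (ρ ∘ e) i} = e ⁻¹' {i | 0 < ρ i ∧ ‖x - z i‖ ≤ ρ i} := rfl
    show {i | 0 < ρ i ∧ ‖x - z i‖ ≤ ρ i}.Infinite ↔ {i | 0 < (ρ ∘ e) i ∧ ‖x - (z ∘ e) i‖ ≤ (ρ ∘ e) i}.Infinite
    rw [h3]
    constructor
    · intro h4 h5
      apply h4
      have h6 := h5.image e
      rwa [Set.image_preimage_eq _ e.surjective] at h6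
    · intro h4 h5
      exact h4 (h5.preimage e.injective.injOn)
  rw [h2]
  exact h1

lemma HaarNull.mono {p : ℕ} [Fact p.Prime] {E F : Set ℤ_[p]} (h : HaarNull p F) (hEF : E ⊆ F) : HaarNull p E := by
  intro ε hε
  obtain ⟨a, k, h1, h2, h3⟩ := h ε hε
  exact ⟨a, k, h1, h2, fun x hx => h3 x (hEF hx)⟩

lemma HaarNull.union {p : ℕ} [Fact p.Prime] {E F : Set ℤ_[p]} (hE : HaarNull p E) (hF : HaarNull p F) :
    HaarNull p (E ∪ F) := by
  intro ε hε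
  obtain ⟨a, k, h1, h2, h3⟩ := hE (ε / 2) (by positivity)
  obtain ⟨a', k', h1', h2', h3'⟩ := hF (ε / 2) (by positivity)
  obtain ⟨A, hA⟩ : ∃ A : ℕ ⊕ ℕ → ℕ, A = Sum.elim a a' := ⟨_, rfl⟩
  obtain ⟨B, hB⟩ : ∃ B : ℕ ⊕ ℕ → ℕ, B = Sum.elim k k' := ⟨_, rfl⟩
  obtain ⟨e⟩ : Nonempty (ℕ ≃ ℕ ⊕ ℕ) := nonempty_equiv_of_countable
  have hl : HasSum (fun s : ℕ ⊕ ℕ => ((p : ℝ) ^ B s)⁻¹) (∑' i, ((p : ℝ) ^ k i)⁻¹ + ∑' i, ((p : ℝ) ^ k' i)⁻¹) := by
    apply HasSum.sum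
    · rw [hB]; exact h1.hasSum
    · rw [hB]; exact h1'.hasSum
  have hl2 : HasSum (fun i : ℕ => ((p : ℝ) ^ B (e i))⁻¹) (∑' i, ((p : ℝ) ^ k i)⁻¹ + ∑' i, ((p : ℝ) ^ k' i)⁻¹) :=
    (Equiv.hasSum_iff e).2 hl
  refine ⟨fun i => A (e i), fun i => B (e i), hl2.summable, ?_, fun x hx => ?_⟩
  · rw [hl2.tsum_eq]
    linarith
  · rcases hx with hx | hx
    · obtain ⟨i, hi⟩ := h3 x hx
      refine ⟨e.symm (Sum.inl i), ?_⟩
      show ‖x - (A (e (e.symm (Sum.inl i))) : ℤ_[p])‖ ≤ ((p : ℝ) ^ B (e (e.symm (Sum.inl i))))⁻¹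
      rw [Equiv.apply_symm_apply, hA, hB]
      exact hi
    · obtain ⟨i, hi⟩ := h3' x hx
      refine ⟨e.symm (Sum.inr i), ?_⟩
      show ‖x - (A (e (e.symm (Sum.inr i))) : ℤ_[p])‖ ≤ ((p : ℝ) ^ B (e (e.symm (Sum.inr i))))⁻¹
      rw [Equiv.apply_symm_apply, hA, hB]
      exact hi

/-- the sum of `exp (- a (j + 1) ^ (3 / 4))` -/
lemma summable_exp {a : ℝ} (ha : 0 < a) : Summable (fun j : ℕ => Real.exp (-(a * ((j : ℝ) + 1) ^ (3 / 4 : ℝ)))) := by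
  have h1 : Summable (fun j : ℕ => 24 / a ^ 4 * (1 / ((j : ℝ) + 1) ^ 2)) := by
    apply Summable.mul_left
    have h2 := (summable_nat_add_iff 1).2 (Real.summable_one_div_nat_pow.2 (by norm_num : 1 < 2))
    refine h2.congr fun j => ?_
    push_cast
    rfl
  refine Summable.of_nonneg_of_le (fun j => (Real.exp_pos _).le) (fun j => ?_) h1
  obtain ⟨y, hy⟩ : ∃ y : ℝ, y = (j : ℝ) + 1 := ⟨_, rfl⟩
  rw [← hy]
  have hy1 : 1 ≤ y := by rw [hy]; linarith [(Nat.cast_nonneg j : (0 : ℝ) ≤ j)]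
  have hy0 : 0 < y := by linarith
  obtain ⟨t, ht⟩ : ∃ t : ℝ, t = a * y ^ (3 / 4 : ℝ) := ⟨_, rfl⟩
  have ht0 : 0 < t := by rw [ht]; positivity
  have ht4 : t ^ 4 = a ^ 4 * y ^ 3 := by
    rw [ht, mul_pow, ← Real.rpow_natCast (y ^ (3 / 4 : ℝ)), ← Real.rpow_mul hy0.le, ← Real.rpow_natCast y]
    norm_num
  have h3 : t ^ 4 / 24 ≤ Real.exp t := by
    have := Real.pow_div_factorial_le_exp t ht0.le 4
    simpa [Nat.factorial] using this
  rw [← ht, Real.exp_neg]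
  have h4 : a ^ 4 * y ^ 2 / 24 ≤ Real.exp t := by
    refine le_trans ?_ h3
    rw [ht4]
    have h5 : a ^ 4 * y ^ 2 ≤ a ^ 4 * y ^ 3 := by
      apply mul_le_mul_of_nonneg_left _ (by positivity)
      exact pow_le_pow_right₀ hy1 (by norm_num)
    linarith
  have h6 : (Real.exp t)⁻¹ ≤ (a ^ 4 * y ^ 2 / 24)⁻¹ := inv_anti₀ (by positivity) h4
  refine h6.trans (le_of_eq ?_)
  field_simp

/-- **Few bad vectors have a finite sum of radii.** -/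
theorem summable_bad {ι : Type*} (B : Set ι) (h : ι → ℝ) (h1 : ∀ v, 1 ≤ h v) {K c₁ c' : ℝ} (d : ℕ) (hK : 0 ≤ K)
    (hc' : 0 ≤ c') (hc : c' < c₁)
    (hB : ∀ X : ℕ, 1 ≤ X → {v | v ∈ B ∧ h v ≤ X}.Finite ∧
      (({v | v ∈ B ∧ h v ≤ X}.ncard : ℕ) : ℝ) ≤ K * (X : ℝ) ^ d * Real.exp (-(c₁ * Real.log X ^ (3 / 4 : ℝ)))) :
    Summable (fun v : ι => if v ∈ B then Real.exp (c' * Real.log (h v) ^ (3 / 4 : ℝ)) / (h v) ^ d else 0) := by
  obtain ⟨a, ha⟩ : ∃ a : ℝ, a = (c₁ - c') * Real.log 2 ^ (3 / 4 : ℝ) := ⟨_, rfl⟩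
  have hlog2 : 0 < Real.log 2 := Real.log_pos (by norm_num)
  have ha0 : 0 < a := by
    rw [ha]
    have : 0 < c₁ - c' := by linarith
    positivity
  obtain ⟨b, hb⟩ : ∃ b : ℕ → ℝ, b = fun j : ℕ => K * 2 ^ d * Real.exp (-(a * ((j : ℝ) + 1) ^ (3 / 4 : ℝ))) := ⟨_, rfl⟩
  have hbs : Summable b := by rw [hb]; exact (summable_exp ha0).mul_left _
  have hb0 : ∀ j, 0 ≤ b j := fun j => by rw [hb]; positivity
  obtain ⟨f, hf⟩ : ∃ f : ι → ℝ, f = fun v : ι => if v ∈ B then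
    Real.exp (c' * Real.log (h v) ^ (3 / 4 : ℝ)) / (h v) ^ d else 0 := ⟨_, rfl⟩
  have hf0 : ∀ v, 0 ≤ f v := by
    intro v
    rw [hf]
    have := h1 v
    show 0 ≤ if v ∈ B then Real.exp (c' * Real.log (h v) ^ (3 / 4 : ℝ)) / (h v) ^ d else 0
    split_ifs
    · positivity
    · exact le_rfl
  rw [← hf]
  refine summable_of_sum_le (c := ∑' j, b j) hf0 fun u => ?_
  obtain ⟨J, hJ⟩ : ∃ J : ℕ, ∀ v ∈ u, Nat.log 2 ⌊h v⌋₊ ∈ range J := by
    refine ⟨(u.sup fun v => Nat.log 2 ⌊h v⌋₊) + 1, fun v hv => ?_⟩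
    rw [mem_range]
    have := Finset.le_sup (f := fun v => Nat.log 2 ⌊h v⌋₊) hv
    omega
  rw [← Finset.sum_fiberwise_of_maps_to hJ]
  have hj : ∀ j ∈ range J, ∑ v ∈ u with Nat.log 2 ⌊h v⌋₊ = j, f v ≤ b j := by
    intro j _
    -- the bad ones
    obtain ⟨W, hW⟩ : ∃ W : Finset ι, W = (u.filter fun v => Nat.log 2 ⌊h v⌋₊ = j).filter (fun v => v ∈ B) := ⟨_, rfl⟩
    have h2 : ∑ v ∈ u with Nat.log 2 ⌊h v⌋₊ = j, f v = ∑ v ∈ W, f v := by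
      rw [hW]
      symm
      apply Finset.sum_filter_of_ne
      intro v _ hv
      by_contra hcon
      apply hv
      rw [hf]
      exact if_neg hcon
    rw [h2]
    obtain ⟨hfin, hcard⟩ := hB (2 ^ (j + 1)) (Nat.one_le_two_pow)
    have hmem : ∀ v ∈ W, v ∈ B ∧ (2 : ℝ) ^ j ≤ h v ∧ h v ≤ ((2 ^ (j + 1) : ℕ) : ℝ) := by
      intro v hv
      rw [hW, mem_filter, mem_filter] at hv
      obtain ⟨⟨_, h3⟩, h4⟩ := hv
      have h5 : ⌊h v⌋₊ ≠ 0 := by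
        have : 1 ≤ ⌊h v⌋₊ := Nat.le_floor (by exact_mod_cast h1 v)
        omega
      have h6 := Nat.pow_log_le_self 2 h5
      have h7 := Nat.lt_pow_succ_log_self (b := 2) (by norm_num) ⌊h v⌋₊
      rw [h3] at h6 h7
      refine ⟨h4, ?_, ?_⟩
      · have h8 : ((2 ^ j : ℕ) : ℝ) ≤ (⌊h v⌋₊ : ℝ) := by exact_mod_cast h6
        have h9 : (⌊h v⌋₊ : ℝ) ≤ h v := Nat.floor_le (by linarith [h1 v])
        push_cast at h8
        linarith
      · have h8 : h v < (⌊h v⌋₊ : ℝ) + 1 := Nat.lt_floor_add_one _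
        have h9 : ((⌊h v⌋₊ + 1 : ℕ) : ℝ) ≤ ((2 ^ (j + 1) : ℕ) : ℝ) := by exact_mod_cast h7
        push_cast at h9 ⊢
        linarith
    obtain ⟨L, hL⟩ : ∃ L : ℝ, L = Real.log ((2 ^ (j + 1) : ℕ) : ℝ) := ⟨_, rfl⟩
    have hLe : L = ((j : ℝ) + 1) * Real.log 2 := by
      rw [hL]
      push_cast
      rw [Real.log_pow]
      push_cast
      ring
    have hterm : ∀ v ∈ W, f v ≤ Real.exp (c' * L ^ (3 / 4 : ℝ)) / ((2 : ℝ) ^ j) ^ d := by
      intro v hv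
      obtain ⟨h3, h4, h5⟩ := hmem v hv
      have h6 : f v = Real.exp (c' * Real.log (h v) ^ (3 / 4 : ℝ)) / (h v) ^ d := by
        rw [hf]
        exact if_pos h3
      rw [h6]
      have h7 : Real.log (h v) ≤ L := by
        rw [hL]
        exact Real.log_le_log (by linarith [h1 v]) h5
      have h8 : 0 ≤ Real.log (h v) := Real.log_nonneg (h1 v)
      have h9 : Real.log (h v) ^ (3 / 4 : ℝ) ≤ L ^ (3 / 4 : ℝ) := Real.rpow_le_rpow h8 h7 (by norm_num)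
      apply div_le_div₀ (Real.exp_pos _).le _ (by positivity) _
      · apply Real.exp_le_exp.2
        exact mul_le_mul_of_nonneg_left h9 hc'
      · exact pow_le_pow_left₀ (by positivity) h4 d
    have hWc : (W.card : ℝ) ≤ K * (((2 ^ (j + 1) : ℕ) : ℝ)) ^ d * Real.exp (-(c₁ * L ^ (3 / 4 : ℝ))) := by
      rw [hL]
      refine le_trans ?_ hcard
      have h3 : (W : Set ι) ⊆ {v | v ∈ B ∧ h v ≤ ((2 ^ (j + 1) : ℕ) : ℝ)} := by
        intro v hv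
        have := hmem v hv
        exact ⟨this.1, this.2.2⟩
      have h4 := Set.ncard_le_ncard h3 hfin
      rw [Set.ncard_coe_finset] at h4
      exact_mod_cast h4
    calc ∑ v ∈ W, f v ≤ ∑ v ∈ W, Real.exp (c' * L ^ (3 / 4 : ℝ)) / ((2 : ℝ) ^ j) ^ d := Finset.sum_le_sum hterm
      _ = W.card * (Real.exp (c' * L ^ (3 / 4 : ℝ)) / ((2 : ℝ) ^ j) ^ d) := by rw [Finset.sum_const, nsmul_eq_mul]
      _ ≤ (K * (((2 ^ (j + 1) : ℕ) : ℝ)) ^ d * Real.exp (-(c₁ * L ^ (3 / 4 : ℝ)))) *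
          (Real.exp (c' * L ^ (3 / 4 : ℝ)) / ((2 : ℝ) ^ j) ^ d) := mul_le_mul_of_nonneg_right hWc (by positivity)
      _ = b j := by
        rw [hb]
        have hLp : L ^ (3 / 4 : ℝ) = ((j : ℝ) + 1) ^ (3 / 4 : ℝ) * Real.log 2 ^ (3 / 4 : ℝ) := by
          rw [hLe, Real.mul_rpow (by positivity) hlog2.le]
        have he : Real.exp (-(a * ((j : ℝ) + 1) ^ (3 / 4 : ℝ))) =
            Real.exp (-(c₁ * L ^ (3 / 4 : ℝ))) * Real.exp (c' * L ^ (3 / 4 : ℝ)) := by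
          rw [← Real.exp_add, hLp, ha]
          congr 1
          ring
        show _ = K * 2 ^ d * Real.exp (-(a * ((j : ℝ) + 1) ^ (3 / 4 : ℝ)))
        rw [he]
        have h2d : (((2 ^ (j + 1) : ℕ) : ℝ)) ^ d = ((2 : ℝ) ^ j) ^ d * 2 ^ d := by
          push_cast
          rw [pow_succ, mul_pow]
        rw [h2d]
        have h2j : ((2 : ℝ) ^ j) ^ d ≠ 0 := by positivity
        field_simp
  refine (Finset.sum_le_sum hj).trans ?_
  exact hbs.sum_le_tsum _ (fun j _ => hb0 j)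

/-- **Almost all padic integers are approximated by good vectors only.** -/
theorem null_bad {ι : Type*} [Countable ι] [Infinite ι] (p : ℕ) [Fact p.Prime] (B : Set ι) (h : ι → ℝ)
    (h1 : ∀ v, 1 ≤ h v) {K c₁ c' : ℝ} (d : ℕ) (hK : 0 ≤ K) (hc' : 0 ≤ c') (hc : c' < c₁)
    (hB : ∀ X : ℕ, 1 ≤ X → {v | v ∈ B ∧ h v ≤ X}.Finite ∧
      (({v | v ∈ B ∧ h v ≤ X}.ncard : ℕ) : ℝ) ≤ K * (X : ℝ) ^ d * Real.exp (-(c₁ * Real.log X ^ (3 / 4 : ℝ))))
    (z : ι → ℤ_[p]) :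
    HaarNull p {x | {v | v ∈ B ∧ ‖x - z v‖ ≤ Real.exp (c' * Real.log (h v) ^ (3 / 4 : ℝ)) / (h v) ^ d}.Infinite} := by
  have hs := summable_bad B h h1 d hK hc' hc hB
  have h0 : ∀ v, 0 ≤ (if v ∈ B then Real.exp (c' * Real.log (h v) ^ (3 / 4 : ℝ)) / (h v) ^ d else 0) := by
    intro v
    have := h1 v
    split_ifs
    · positivity
    · exact le_rfl
  refine (null_limsup' p z _ h0 hs).mono fun x hx => ?_
  refine hx.mono ?_
  rintro v ⟨h2, h3⟩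
  have := h1 v
  show 0 < (if v ∈ B then Real.exp (c' * Real.log (h v) ^ (3 / 4 : ℝ)) / (h v) ^ d else 0) ∧
    ‖x - z v‖ ≤ (if v ∈ B then Real.exp (c' * Real.log (h v) ^ (3 / 4 : ℝ)) / (h v) ^ d else 0)
  rw [if_pos h2]
  exact ⟨by positivity, h3⟩

end Pool.Agent.N575.PA
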