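import Pool.Agent.N575.PA.Tool

/-!
# Padic points of the plane approximated by pairs of integers of the sizes `N ^ 2` and `N ^ 3`
-/

set_option autoImplicit false

namespace Pool.Agent.N575.PA

open Filter Topology MeasureTheory Finset Classical
open scoped ENNReal NNReal
open Pool.Agent.R479.DB (dimH_limsup)

/-- a padic ball of radius `ρ` is covered by few sets of diameter at most `2 r` -/
lemma cover_ball (p : ℕ) [Fact p.Prime] {ρ r : ℝ} (hρ : 0 < ρ) (hr : 0 < r) :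
    ∃ K : ℕ, 1 ≤ K ∧ (K : ℝ) ≤ 1 + (p : ℝ) ^ 2 * (ρ + ρ / r) ∧ ∀ A : ℤ, ∃ u : Fin K → Set ℤ_[p],
      (∀ i, ∀ x ∈ u i, ∀ y ∈ u i, dist x y ≤ 2 * r) ∧ ∀ x : ℤ_[p], ‖x - (A : ℤ_[p])‖ ≤ ρ → ∃ i, x ∈ u i := by
  have hp : p.Prime := Fact.out
  have hp1 : (1 : ℝ) < p := by exact_mod_cast hp.one_lt
  have hp0 : (0 : ℝ) < p := by linarith
  obtain ⟨m, hm1, hm2⟩ := exists_pow hp hr
  -- the scale of the large ball
  have hl : ∃ l : ℕ, ((p : ℝ) ^ l)⁻¹ ≤ p * ρ ∧ ∀ x : ℤ_[p], ‖x‖ ≤ ρ → ∃ y : ℤ_[p], x = (p : ℤ_[p]) ^ l * y := by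
    by_cases h1 : 1 ≤ ρ
    · refine ⟨0, ?_, fun x _ => ⟨x, by simp⟩⟩
      rw [pow_zero, inv_one]
      nlinarith
    · push Not at h1
      have hex : ∃ n : ℕ, ((p : ℝ) ^ n)⁻¹ < ρ := by
        obtain ⟨n, hn⟩ := pow_unbounded_of_one_lt (1 / ρ) hp1
        refine ⟨n, ?_⟩
        rw [inv_lt_comm₀ (by positivity) hρ, ← one_div]
        exact hn
      obtain ⟨n, hn⟩ : ∃ n, n = Nat.find hex := ⟨_, rfl⟩
      have h2 := Nat.find_spec hex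
      rw [← hn] at h2
      have hn0 : n ≠ 0 := by
        intro h0
        rw [h0, pow_zero, inv_one] at h2
        linarith
      obtain ⟨l, rfl⟩ := Nat.exists_eq_succ_of_ne_zero hn0
      have h3 := Nat.find_min hex (m := l) (by rw [← hn]; omega)
      rw [not_lt] at h3
      refine ⟨l, ?_, fun x hx => ?_⟩
      · rw [pow_succ, mul_inv] at h2
        have h4 : ((p : ℝ) ^ l)⁻¹ * (p : ℝ)⁻¹ * p < ρ * p := mul_lt_mul_of_pos_right h2 hp0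
        rw [mul_assoc, inv_mul_cancel₀ hp0.ne', mul_one] at h4
        linarith
      · have h4 : ‖x‖ ≤ (p : ℝ) ^ (-(l : ℤ)) := by
          rw [zpow_neg, zpow_natCast]
          exact hx.trans h3
        rw [PadicInt.norm_le_pow_iff_mem_span_pow, Ideal.mem_span_singleton] at h4
        exact h4
  obtain ⟨l, hl1, hl2⟩ := hl
  refine ⟨p ^ (m - l), Nat.one_le_pow _ _ hp.pos, ?_, fun A => ?_⟩
  · push_cast
    have h0 : 0 ≤ (p : ℝ) ^ 2 * (ρ + ρ / r) := by positivity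
    rcases le_total m l with h | h
    · rw [Nat.sub_eq_zero_of_le h, pow_zero]
      linarith
    · have h1 : (p : ℝ) ^ (m - l) = (p : ℝ) ^ m * ((p : ℝ) ^ l)⁻¹ := by
        rw [pow_sub₀ _ hp0.ne' h]
      rw [h1]
      calc (p : ℝ) ^ m * ((p : ℝ) ^ l)⁻¹ ≤ (p * (1 + 1 / r)) * (p * ρ) :=
            mul_le_mul hm2 hl1 (by positivity) (by positivity)
        _ = (p : ℝ) ^ 2 * (ρ + ρ / r) := by ring
        _ ≤ _ := by linarith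
  · refine ⟨fun a => {x | ‖x - (A : ℤ_[p]) - (p : ℤ_[p]) ^ l * (((a : ℕ)) : ℤ_[p])‖ ≤ r}, fun i x hx y hy => ?_, fun x hx => ?_⟩
    · have e : x - y = (x - (A : ℤ_[p]) - (p : ℤ_[p]) ^ l * (((i : ℕ)) : ℤ_[p])) -
          (y - (A : ℤ_[p]) - (p : ℤ_[p]) ^ l * (((i : ℕ)) : ℤ_[p])) := by ring
      rw [dist_eq_norm, e]
      refine (norm_sub_le _ _).trans ?_
      have h1 : ‖x - (A : ℤ_[p]) - (p : ℤ_[p]) ^ l * (((i : ℕ)) : ℤ_[p])‖ ≤ r := hx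
      have h2 : ‖y - (A : ℤ_[p]) - (p : ℤ_[p]) ^ l * (((i : ℕ)) : ℤ_[p])‖ ≤ r := hy
      linarith
    · obtain ⟨y, hy⟩ := hl2 _ hx
      refine ⟨⟨y.appr (m - l), PadicInt.appr_lt _ _⟩, ?_⟩
      have h1 := PadicInt.appr_spec (m - l) y
      rw [← PadicInt.norm_le_pow_iff_mem_span_pow] at h1
      show ‖x - (A : ℤ_[p]) - (p : ℤ_[p]) ^ l * (((y.appr (m - l) : ℕ)) : ℤ_[p])‖ ≤ r
      have e : x - (A : ℤ_[p]) - (p : ℤ_[p]) ^ l * (((y.appr (m - l) : ℕ)) : ℤ_[p]) =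
          (p : ℤ_[p]) ^ l * (y - ((y.appr (m - l) : ℕ) : ℤ_[p])) := by
        rw [hy]
        ring
      rw [e, norm_mul, norm_pow, PadicInt.norm_p, inv_pow]
      rw [zpow_neg, zpow_natCast] at h1
      calc ((p : ℝ) ^ l)⁻¹ * ‖y - ((y.appr (m - l) : ℕ) : ℤ_[p])‖ ≤ ((p : ℝ) ^ l)⁻¹ * ((p : ℝ) ^ (m - l))⁻¹ :=
            mul_le_mul_of_nonneg_left h1 (by positivity)
        _ = ((p : ℝ) ^ (l + (m - l)))⁻¹ := by rw [pow_add, mul_inv]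
        _ ≤ ((p : ℝ) ^ m)⁻¹ := by
            apply inv_anti₀ (by positivity)
            exact pow_le_pow_right₀ hp1.le (by omega)
        _ ≤ r := hm1

/-- **Pairs.** The padic points of the plane which are approximated up to `c N ^ (-2 τ)` and `c N ^ (-3 τ)` in the two
coordinates by a member of a set of `C N ^ s` pairs, for infinitely many `N = 2 ^ n`. -/
theorem pair_core (p : ℕ) [Fact p.Prime] (Xs : ℕ → Finset (ℤ × ℤ)) {s C c τ : ℝ} (hs : 0 ≤ s) (hτ : 0 < τ) (hc : 0 < c)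
    (hX : ∀ n, ((Xs n).card : ℝ) ≤ C * ((2 : ℝ) ^ n) ^ s) :
    dimH {x : ℤ_[p] × ℤ_[p] | {n : ℕ | ∃ z ∈ Xs n, ‖x.1 - (z.1 : ℤ_[p])‖ ≤ c * ((2 : ℝ) ^ n) ^ (-(2 * τ)) ∧
      ‖x.2 - (z.2 : ℤ_[p])‖ ≤ c * ((2 : ℝ) ^ n) ^ (-(3 * τ))}.Infinite} ≤ ENNReal.ofReal (1 / 3 + s / (3 * τ)) := by
  have hp : p.Prime := Fact.out
  have hp0 : (0 : ℝ) < p := by exact_mod_cast hp.pos
  apply ENNReal.le_of_forall_pos_le_add
  intro ε hε _
  have hε' : (0 : ℝ) < ε := by exact_mod_cast hε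
  rw [← ENNReal.ofReal_coe_nnreal (p := ε), ← ENNReal.ofReal_add (by positivity) hε'.le]
  obtain ⟨D, hD⟩ : ∃ D : ℝ, D = 1 / 3 + s / (3 * τ) + ε := ⟨_, rfl⟩
  rw [← hD]
  have hD0 : 0 < D := by rw [hD]; positivity
  have hDτ : 3 * τ * D = τ + s + 3 * τ * ε := by
    rw [hD]
    field_simp
  have h2n : ∀ n : ℕ, (0 : ℝ) < 2 ^ n := fun n => by positivity
  have h2n1 : ∀ n : ℕ, (1 : ℝ) ≤ 2 ^ n := fun n => one_le_pow₀ (by norm_num)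
  obtain ⟨ρ, hρ⟩ : ∃ ρ : ℕ → ℝ, ρ = fun n => c * ((2 : ℝ) ^ n) ^ (-(2 * τ)) := ⟨_, rfl⟩
  obtain ⟨r, hr⟩ : ∃ r : ℕ → ℝ, r = fun n => c * ((2 : ℝ) ^ n) ^ (-(3 * τ)) := ⟨_, rfl⟩
  have hρ0 : ∀ n, 0 < ρ n := fun n => by rw [hρ]; have := h2n n; positivity
  have hr0 : ∀ n, 0 < r n := fun n => by rw [hr]; have := h2n n; positivity
  choose K hK1 hK2 u hu1 hu2 using fun n => cover_ball p (hρ0 n) (hr0 n)
  have hKb : ∀ n, (K n : ℝ) ≤ (1 + (p : ℝ) ^ 2 * (c + 1)) * ((2 : ℝ) ^ n) ^ τ := by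
    intro n
    have h1 : ρ n / r n = ((2 : ℝ) ^ n) ^ τ := by
      have e1 : r n = c * ((2 : ℝ) ^ n) ^ (-(3 * τ)) := by rw [hr]
      have e2 : ρ n = c * ((2 : ℝ) ^ n) ^ (-(2 * τ)) := by rw [hρ]
      rw [div_eq_iff (hr0 n).ne', e1, e2]
      have e3 : ((2 : ℝ) ^ n) ^ (-(2 * τ)) = ((2 : ℝ) ^ n) ^ τ * ((2 : ℝ) ^ n) ^ (-(3 * τ)) := by
        rw [← Real.rpow_add (h2n n)]
        congr 1
        ring
      rw [e3]
      ring
    have h2 : ρ n ≤ c := by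
      rw [hρ]
      have h3 : ((2 : ℝ) ^ n) ^ (-(2 * τ)) ≤ 1 := Real.rpow_le_one_of_one_le_of_nonpos (h2n1 n) (by linarith)
      nlinarith
    have h3 : (1 : ℝ) ≤ ((2 : ℝ) ^ n) ^ τ := Real.one_le_rpow (h2n1 n) hτ.le
    refine (hK2 n).trans ?_
    rw [h1]
    have h4 : (0 : ℝ) < (p : ℝ) ^ 2 := by positivity
    calc 1 + (p : ℝ) ^ 2 * (ρ n + ((2 : ℝ) ^ n) ^ τ) ≤ ((2 : ℝ) ^ n) ^ τ + (p : ℝ) ^ 2 * (c * ((2 : ℝ) ^ n) ^ τ + ((2 : ℝ) ^ n) ^ τ) := by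
          have h5 : ρ n ≤ c * ((2 : ℝ) ^ n) ^ τ := h2.trans (le_mul_of_one_le_right hc.le h3)
          have h6 : (p : ℝ) ^ 2 * (ρ n + ((2 : ℝ) ^ n) ^ τ) ≤ (p : ℝ) ^ 2 * (c * ((2 : ℝ) ^ n) ^ τ + ((2 : ℝ) ^ n) ^ τ) :=
            mul_le_mul_of_nonneg_left (by linarith) h4.le
          linarith
      _ = _ := by ring
  have hlim := dimH_limsup (X := ℤ_[p] × ℤ_[p]) (ι := Σ n : ℕ, {z // z ∈ Xs n} × Fin (K n))
    (fun t => {x : ℤ_[p] × ℤ_[p] | x.1 ∈ u t.1 t.2.1.1.1 t.2.2 ∧ ‖x.2 - ((t.2.1.1.2 : ℤ) : ℤ_[p])‖ ≤ r t.1})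
    (fun t => 2 * r t.1) (fun t => by have := hr0 t.1; positivity) (fun t => by
      refine Metric.ediam_le_of_forall_dist_le fun x hx y hy => ?_
      rw [Prod.dist_eq]
      refine max_le (hu1 t.1 _ _ x.1 hx.1 y.1 hy.1) ?_
      rw [dist_eq_norm]
      have e : x.2 - y.2 = (x.2 - ((t.2.1.1.2 : ℤ) : ℤ_[p])) - (y.2 - ((t.2.1.1.2 : ℤ) : ℤ_[p])) := by ring
      rw [e]
      refine (norm_sub_le _ _).trans ?_
      linarith [hx.2, hy.2]) hD0 (by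
      rw [summable_sigma_of_nonneg (fun t => Real.rpow_nonneg (by have := hr0 t.1; positivity) _)]
      refine ⟨fun n => (hasSum_fintype _).summable, ?_⟩
      simp only [tsum_fintype, sum_const, card_univ, Fintype.card_prod, Fintype.card_coe, Fintype.card_fin, nsmul_eq_mul]
      have hgeo : Summable fun n : ℕ => |C| * (1 + (p : ℝ) ^ 2 * (c + 1)) * (2 * c) ^ D * (((2 : ℝ) ^ (-(3 * τ * ε))) ^ n) := by
        apply Summable.mul_left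
        apply summable_geometric_of_lt_one (by positivity)
        exact Real.rpow_lt_one_of_one_lt_of_neg (by norm_num) (by
          have : 0 < 3 * τ * (ε : ℝ) := by positivity
          linarith)
      refine Summable.of_nonneg_of_le (fun n => ?_) (fun n => ?_) hgeo
      · exact mul_nonneg (Nat.cast_nonneg _) (Real.rpow_nonneg (by have := hr0 n; positivity) _)
      · push_cast
        have e1 : (2 * r n) ^ D = (2 * c) ^ D * ((2 : ℝ) ^ n) ^ (-(3 * τ * D)) := by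
          have e0 : 2 * r n = (2 * c) * ((2 : ℝ) ^ n) ^ (-(3 * τ)) := by
            rw [hr]
            ring
          rw [e0, Real.mul_rpow (by positivity) (by have := h2n n; positivity), ← Real.rpow_mul (h2n n).le]
          congr 2
          ring
        have e2 : ((2 : ℝ) ^ n) ^ s * ((2 : ℝ) ^ n) ^ τ * ((2 : ℝ) ^ n) ^ (-(3 * τ * D)) = ((2 : ℝ) ^ (-(3 * τ * ε))) ^ n := by
          rw [← Real.rpow_add (h2n n), ← Real.rpow_add (h2n n), hDτ, ← Real.rpow_natCast 2 n, ← Real.rpow_mul (by norm_num),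
            ← Real.rpow_natCast ((2 : ℝ) ^ (-(3 * τ * (ε : ℝ)))) n, ← Real.rpow_mul (by norm_num)]
          congr 1
          ring
        have e3 : 0 ≤ ((2 : ℝ) ^ n) ^ s := by have := h2n n; positivity
        have e4 : 0 ≤ ((2 : ℝ) ^ n) ^ τ := by have := h2n n; positivity
        calc ((Xs n).card : ℝ) * (K n : ℝ) * (2 * r n) ^ D ≤ (|C| * ((2 : ℝ) ^ n) ^ s) *
              ((1 + (p : ℝ) ^ 2 * (c + 1)) * ((2 : ℝ) ^ n) ^ τ) * (2 * r n) ^ D := by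
              apply mul_le_mul_of_nonneg_right _ (Real.rpow_nonneg (by have := hr0 n; positivity) _)
              exact mul_le_mul ((hX n).trans (mul_le_mul_of_nonneg_right (le_abs_self C) e3)) (hKb n)
                (Nat.cast_nonneg _) (by positivity)
          _ = |C| * (1 + (p : ℝ) ^ 2 * (c + 1)) * (2 * c) ^ D *
              (((2 : ℝ) ^ n) ^ s * ((2 : ℝ) ^ n) ^ τ * ((2 : ℝ) ^ n) ^ (-(3 * τ * D))) := by
              rw [e1]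
              ring
          _ = _ := by rw [e2])
  refine le_trans (dimH_mono ?_) hlim
  intro x hx
  simp only [Set.mem_ofPred_eq] at hx ⊢
  intro hfin
  apply hx
  refine (hfin.image (fun t => t.1)).subset ?_
  rintro n ⟨z, hz, h1, h2⟩
  have h1' : ‖x.1 - (z.1 : ℤ_[p])‖ ≤ ρ n := by rw [hρ]; exact h1
  obtain ⟨i, hi⟩ := hu2 n z.1 x.1 h1'
  refine ⟨⟨n, ⟨z, hz⟩, i⟩, ⟨hi, ?_⟩, rfl⟩
  rw [hr]
  exact h2

/-- **Pairs, final form.** `P z R` is a property of the pair `z` of integers, increasing in `R`, with `C R ^ s` exceptional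
pairs `|A| ≤ R ^ 2`, `|B| ≤ R ^ 3`. -/
theorem pair_points (p : ℕ) [Fact p.Prime] {P : ℤ × ℤ → ℝ → Prop} (hmono : ∀ z X Y, X ≤ Y → P z X → P z Y) {s C : ℝ}
    (hs : 0 ≤ s)
    (hP : ∀ R : ℝ, 1 ≤ R → {z : ℤ × ℤ | |(z.1 : ℝ)| ≤ R ^ 2 ∧ |(z.2 : ℝ)| ≤ R ^ 3 ∧ P z R}.Finite ∧
      ({z : ℤ × ℤ | |(z.1 : ℝ)| ≤ R ^ 2 ∧ |(z.2 : ℝ)| ≤ R ^ 3 ∧ P z R}.ncard : ℝ) ≤ C * R ^ s) {τ : ℝ} (hτ : 0 < τ) :
    ∃ E : Set (ℤ_[p] × ℤ_[p]), dimH E ≤ ENNReal.ofReal (1 / 3 + s / (3 * τ)) ∧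
      ∀ x y : ℤ_[p], (x, y) ∉ E → ∀ c : ℝ, ∃ N₀ : ℕ, ∀ N : ℕ, N₀ ≤ N → ∀ A B : ℤ,
        |(A : ℝ)| ≤ c * (N : ℝ) ^ 2 → |(B : ℝ)| ≤ c * (N : ℝ) ^ 3 →
        ‖x - (A : ℤ_[p])‖ ≤ c * (N : ℝ) ^ (-(2 * τ)) → ‖y - (B : ℤ_[p])‖ ≤ c * (N : ℝ) ^ (-(3 * τ)) → ¬ P (A, B) N := by
  obtain ⟨R, hR⟩ : ∃ R : ℕ → ℕ → ℝ, R = fun (c n : ℕ) => ((c : ℝ) + 1) * 2 ^ n := ⟨_, rfl⟩
  have hR1 : ∀ c n, 1 ≤ R c n := fun c n => by
    rw [hR]
    have h1 : (1 : ℝ) ≤ 2 ^ n := one_le_pow₀ (by norm_num)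
    have h2 : (1 : ℝ) ≤ (c : ℝ) + 1 := by
      have : (0 : ℝ) ≤ c := Nat.cast_nonneg c
      linarith
    exact one_le_mul_of_one_le_of_one_le h2 h1
  obtain ⟨Xs, hXs⟩ : ∃ Xs : ℕ → ℕ → Finset (ℤ × ℤ), ∀ c n z, z ∈ Xs c n ↔
      |(z.1 : ℝ)| ≤ (R c n) ^ 2 ∧ |(z.2 : ℝ)| ≤ (R c n) ^ 3 ∧ P z (R c n) :=
    ⟨fun c n => (hP (R c n) (hR1 c n)).1.toFinset, fun c n z => by rw [Set.Finite.mem_toFinset]; rfl⟩
  have hcard : ∀ c n, ((Xs c n).card : ℝ) ≤ (|C| * ((c : ℝ) + 1) ^ s) * ((2 : ℝ) ^ n) ^ s := by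
    intro c n
    have h1 : (Xs c n : Set (ℤ × ℤ)) = {z : ℤ × ℤ | |(z.1 : ℝ)| ≤ (R c n) ^ 2 ∧ |(z.2 : ℝ)| ≤ (R c n) ^ 3 ∧ P z (R c n)} := by
      ext z
      rw [mem_coe, hXs]
      rfl
    have h2 := (hP (R c n) (hR1 c n)).2
    rw [← h1, Set.ncard_coe_finset] at h2
    have h3 : 0 ≤ R c n ^ s := by have := hR1 c n; positivity
    refine (h2.trans (mul_le_mul_of_nonneg_right (le_abs_self C) h3)).trans (le_of_eq ?_)
    rw [hR]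
    show |C| * (((c : ℝ) + 1) * 2 ^ n) ^ s = _
    rw [Real.mul_rpow (by positivity) (by positivity)]
    ring
  obtain ⟨k, hk⟩ : ∃ k : ℕ → ℝ, k = fun (c : ℕ) => ((c : ℝ) + 1) * 2 ^ (3 * τ) := ⟨_, rfl⟩
  have hk0 : ∀ c, 0 < k c := fun c => by rw [hk]; positivity
  refine ⟨⋃ c : ℕ, {x : ℤ_[p] × ℤ_[p] | {n : ℕ | ∃ z ∈ Xs c n, ‖x.1 - (z.1 : ℤ_[p])‖ ≤ k c * ((2 : ℝ) ^ n) ^ (-(2 * τ)) ∧
      ‖x.2 - (z.2 : ℤ_[p])‖ ≤ k c * ((2 : ℝ) ^ n) ^ (-(3 * τ))}.Infinite}, ?_, fun x y hxy c => ?_⟩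
  · rw [dimH_iUnion]
    exact iSup_le fun c => pair_core p (Xs c) hs hτ (hk0 c) (hcard c)
  · obtain ⟨c', hc'⟩ := exists_nat_ge |c|
    have hcc : c ≤ (c' : ℝ) + 1 := by linarith [le_abs_self c]
    have hc'0 : (0 : ℝ) ≤ c' := Nat.cast_nonneg _
    have hfin : {n : ℕ | ∃ z ∈ Xs c' n, ‖x - (z.1 : ℤ_[p])‖ ≤ k c' * ((2 : ℝ) ^ n) ^ (-(2 * τ)) ∧
        ‖y - (z.2 : ℤ_[p])‖ ≤ k c' * ((2 : ℝ) ^ n) ^ (-(3 * τ))}.Finite := by
      by_contra hcon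
      exact hxy (Set.mem_iUnion.2 ⟨c', hcon⟩)
    obtain ⟨B₀, hB₀⟩ := hfin.bddAbove
    refine ⟨2 ^ B₀ + 2, fun N hN A B hA hB hx hy hPA => ?_⟩
    have h2B : 1 ≤ 2 ^ B₀ := Nat.one_le_two_pow
    have hN2 : 2 ≤ N := by omega
    have hNr : (1 : ℝ) ≤ N := by exact_mod_cast (by omega : 1 ≤ N)
    have hNr0 : (0 : ℝ) < N := by linarith
    obtain ⟨n, hn⟩ : ∃ n, n = Nat.clog 2 N := ⟨_, rfl⟩
    have hk1 : N ≤ 2 ^ n := by rw [hn]; exact Nat.le_pow_clog (by norm_num) N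
    have hk2 : 2 ^ n ≤ 2 * N := by
      have h1 := Nat.pow_pred_clog_lt_self (b := 2) (by norm_num) (by omega : 1 < N)
      rw [← hn] at h1
      have h2 : 2 ^ n ≤ 2 * 2 ^ n.pred := by
        rcases n with _ | n
        · norm_num
        · rw [Nat.pred_succ, pow_succ]
          omega
      omega
    have hkB : B₀ < n := by
      by_contra hcon
      push Not at hcon
      have h1 : 2 ^ n ≤ 2 ^ B₀ := Nat.pow_le_pow_right (by norm_num) hcon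
      omega
    have hk1r : (N : ℝ) ≤ 2 ^ n := by exact_mod_cast hk1
    have hk2r : (2 : ℝ) ^ n ≤ 2 * N := by exact_mod_cast hk2
    have h2n : (0 : ℝ) < 2 ^ n := by positivity
    have hpow : ∀ t : ℝ, 0 ≤ t → (N : ℝ) ^ (-t) ≤ 2 ^ t * ((2 : ℝ) ^ n) ^ (-t) := by
      intro t ht
      have h1 : (2 * (N : ℝ)) ^ (-t) ≤ ((2 : ℝ) ^ n) ^ (-t) :=
        Real.rpow_le_rpow_of_nonpos h2n hk2r (by linarith)
      rw [Real.mul_rpow (by norm_num) hNr0.le, Real.rpow_neg (by norm_num : (0 : ℝ) ≤ 2)] at h1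
      have h2 : (0 : ℝ) < 2 ^ t := by positivity
      rw [inv_mul_le_iff₀ h2] at h1
      exact h1
    have hsol : ∀ t : ℝ, 0 ≤ t → t ≤ 3 * τ → c * (N : ℝ) ^ (-t) ≤ k c' * ((2 : ℝ) ^ n) ^ (-t) := by
      intro t ht ht3
      have h0 : 0 ≤ (N : ℝ) ^ (-t) := by positivity
      have h1 : (2 : ℝ) ^ t ≤ 2 ^ (3 * τ) := Real.rpow_le_rpow_of_exponent_le (by norm_num) ht3
      calc c * (N : ℝ) ^ (-t) ≤ ((c' : ℝ) + 1) * (N : ℝ) ^ (-t) := mul_le_mul_of_nonneg_right hcc h0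
        _ ≤ ((c' : ℝ) + 1) * (2 ^ t * ((2 : ℝ) ^ n) ^ (-t)) := mul_le_mul_of_nonneg_left (hpow t ht) (by positivity)
        _ = (((c' : ℝ) + 1) * 2 ^ t) * ((2 : ℝ) ^ n) ^ (-t) := by ring
        _ ≤ k c' * ((2 : ℝ) ^ n) ^ (-t) := by
            rw [hk]
            exact mul_le_mul_of_nonneg_right (mul_le_mul_of_nonneg_left h1 (by positivity)) (by positivity)
    have hsz : ∀ (j : ℕ), 1 ≤ j → c * (N : ℝ) ^ j ≤ (R c' n) ^ j := by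
      intro j hj
      rw [hR]
      show c * (N : ℝ) ^ j ≤ (((c' : ℝ) + 1) * 2 ^ n) ^ j
      rw [mul_pow]
      have h1 : (N : ℝ) ^ j ≤ ((2 : ℝ) ^ n) ^ j := pow_le_pow_left₀ hNr0.le hk1r j
      have h2 : c ≤ ((c' : ℝ) + 1) ^ j := hcc.trans (le_self_pow₀ (by linarith) (by omega))
      exact mul_le_mul h2 h1 (by positivity) (by positivity)
    have hmem : (A, B) ∈ Xs c' n := by
      rw [hXs]
      refine ⟨hA.trans (hsz 2 (by norm_num)), hB.trans (hsz 3 (by norm_num)), hmono _ _ _ ?_ hPA⟩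
      rw [hR]
      show (N : ℝ) ≤ ((c' : ℝ) + 1) * 2 ^ n
      nlinarith
    have := hB₀ ⟨(A, B), hmem, hx.trans (hsol (2 * τ) (by linarith) (by linarith)), hy.trans (hsol (3 * τ) (by linarith) le_rfl)⟩
    omega

end Pool.Agent.N575.PA
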