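import Pool.Agent.N671.DA.Sys
import Pool.Agent.R479.DB.Lim

/-!
# Padic points and padic linear forms approximated by the integer vectors of a thin set

Let `W` be a set of integer vectors with `O_ε (X ^ (s + ε))` elements of norm at most `X`. For all padic points outside a set
of Hausdorff dimension at most `s / τ` only finitely many vectors `v` of `W` approximate the point up to `c |v| ^ (-τ)`, and
similarly for systems of padic linear forms. (Engine of the campaign PA of helper575, the padic counterpart of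
`Pool.Agent.N671.DA` of helper671.)
-/

set_option autoImplicit false

namespace Pool.Agent.N575.PA

open Filter Topology MeasureTheory Finset Classical
open scoped ENNReal NNReal
open Pool.Agent.N671.DA (Thin box_fin)
open Pool.Agent.R479.DB (dimH_limsup)

/-- points of a metric space approximated by a thin countable set, with a constant -/
theorem dimH_approx_c {X : Type} [MetricSpace X] {K : Type} [Countable K] (σ : K → X) (P : Set K)
    (H : K → ℝ) (hH : ∀ x, 1 ≤ H x) {s τ : ℝ} (hs : 0 ≤ s) (hτ : 0 < τ)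
    (hcount : ∀ ε : ℝ, 0 < ε → ∃ C : ℝ, ∀ B : ℝ, 1 ≤ B → {x | x ∈ P ∧ H x ≤ B}.Finite ∧
      (({x | x ∈ P ∧ H x ≤ B}.ncard : ℕ) : ℝ) ≤ C * B ^ (s + ε)) {c : ℝ} (hc : 0 < c) :
    dimH {z : X | {x | x ∈ P ∧ dist z (σ x) ≤ c * H x ^ (-τ)}.Infinite} ≤ ENNReal.ofReal (s / τ) := by
  apply ENNReal.le_of_forall_pos_le_add
  intro ε hε _
  have hε' : (0 : ℝ) < ε := by exact_mod_cast hε
  rw [← ENNReal.ofReal_coe_nnreal (p := ε), ← ENNReal.ofReal_add (by positivity) hε'.le]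
  obtain ⟨D, hD⟩ : ∃ D : ℝ, D = s / τ + ε := ⟨_, rfl⟩
  rw [← hD]
  have hD0 : 0 < D := by rw [hD]; positivity
  have hDτ : D * τ = s + ε * τ := by
    rw [hD, add_mul, div_mul_cancel₀ _ hτ.ne']
  obtain ⟨C, hC⟩ := hcount (ε * τ / 2) (by positivity)
  have hpos : ∀ x : K, 0 < H x := fun x => lt_of_lt_of_le one_pos (hH x)
  have h1 := dimH_limsup (fun x : P => Metric.closedBall (σ x.1) (c * H x.1 ^ (-τ))) (fun x => 2 * c * H x.1 ^ (-τ))
    (fun x => by
      have := hpos x.1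
      positivity) (fun x => by
        have h0 : 0 ≤ c * H x.1 ^ (-τ) := mul_nonneg hc.le (Real.rpow_nonneg (hpos x.1).le _)
        refine Metric.ediam_le_of_forall_dist_le fun a ha b hb => ?_
        rw [Metric.mem_closedBall] at ha hb
        have := dist_triangle_right a b (σ x.1)
        linarith) hD0 (by
      have h2 := Pool.Agent.R479.DA.summable_heights (ι := P) (fun x => H x.1)
        (fun x => hH x.1) (s := s + ε * τ / 2) (p := D * τ) (C := C)
        (by rw [hDτ]; nlinarith [mul_pos hε' hτ]) (by positivity) (by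
          intro B hB
          obtain ⟨hfin, hle⟩ := hC B hB
          have hinj : Set.InjOn (Subtype.val : P → K) {x | H x.1 ≤ B} :=
            Subtype.val_injective.injOn
          have himg : (Subtype.val : P → K) '' {x | H x.1 ≤ B} = {x | x ∈ P ∧ H x ≤ B} := by
            ext t
            constructor
            · rintro ⟨u, hu, rfl⟩
              exact ⟨u.2, hu⟩
            · rintro ⟨ht, htX⟩
              exact ⟨⟨t, ht⟩, htX, rfl⟩
          refine ⟨Set.Finite.of_finite_image (by rw [himg]; exact hfin) hinj, ?_⟩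
          rw [← hinj.ncard_image, himg]
          exact hle)
      refine (h2.mul_left ((2 * c : ℝ) ^ D)).congr fun x => ?_
      have := hpos x.1
      have h3 : (2 * c * H x.1 ^ (-τ)) ^ D = (2 * c) ^ D * (H x.1 ^ (-τ)) ^ D :=
        Real.mul_rpow (by positivity) (by positivity)
      rw [h3, ← Real.rpow_mul this.le]
      congr 2
      ring)
  refine le_trans (dimH_mono ?_) h1
  intro z hz
  simp only [Set.mem_ofPred_eq] at hz ⊢
  have himg : (Subtype.val : P → K) '' {x : P | z ∈ Metric.closedBall (σ x.1) (c * H x.1 ^ (-τ))} =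
      {x | x ∈ P ∧ dist z (σ x) ≤ c * H x ^ (-τ)} := by
    ext t
    constructor
    · rintro ⟨u, hu, rfl⟩
      exact ⟨u.2, hu⟩
    · rintro ⟨ht, htX⟩
      exact ⟨⟨t, ht⟩, htX, rfl⟩
  intro hfin
  apply hz
  rw [← himg]
  exact hfin.image _

/-- the count of a thin set in the form needed above -/
lemma thin_count {k : ℕ} {W : Set (Fin k → ℤ)} {s : ℝ} (hW : Thin W s) :
    ∀ ε : ℝ, 0 < ε → ∃ C : ℝ, ∀ B : ℝ, 1 ≤ B → {v | v ∈ W ∧ max 1 ‖v‖ ≤ B}.Finite ∧
      (({v | v ∈ W ∧ max 1 ‖v‖ ≤ B}.ncard : ℕ) : ℝ) ≤ C * B ^ (s + ε) := by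
  intro ε hε
  obtain ⟨C, hC⟩ := hW ε hε
  refine ⟨C, fun B hB => ?_⟩
  have hset : {v : Fin k → ℤ | v ∈ W ∧ max 1 ‖v‖ ≤ B} = {q : Fin k → ℤ | q ∈ W ∧ ∀ i, |(q i : ℝ)| ≤ B} := by
    ext v
    simp only [Set.mem_ofPred_eq, max_le_iff]
    constructor
    · rintro ⟨h1, -, h2⟩
      refine ⟨h1, fun i => ?_⟩
      have := (norm_le_pi_norm v i).trans h2
      rwa [Int.norm_eq_abs] at this
    · rintro ⟨h1, h2⟩
      refine ⟨h1, hB, ?_⟩
      rw [pi_norm_le_iff_of_nonneg (by linarith)]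
      intro i
      rw [Int.norm_eq_abs]
      exact h2 i
  rw [hset]
  exact ⟨(box_fin (ι := Fin k) B).subset fun q hq => hq.2, hC B hB⟩

/-- **Padic points.** Let `W` be a thin set of integer vectors. For all padic points `x` outside a set of dimension at most
`s / τ` and all `c`, all large integer vectors `v` with `|x_i - v_i|_p ≤ c |v| ^ (-τ)` are not in `W`. (For `τ = 1`, `c = 1` the
vectors `x mod p ^ n` are such vectors.) -/
theorem padic_vectors (p : ℕ) [Fact p.Prime] {k : ℕ} (W : Set (Fin k → ℤ)) {s : ℝ} (hs : 0 ≤ s) (hW : Thin W s)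
    {τ : ℝ} (hτ : 0 < τ) :
    ∃ E : Set (Fin k → ℤ_[p]), dimH E ≤ ENNReal.ofReal (s / τ) ∧
      ∀ x, x ∉ E → ∀ c : ℝ, ∃ Q : ℝ, ∀ v : Fin k → ℤ, Q ≤ ‖v‖ → (∀ i, ‖x i - (v i : ℤ_[p])‖ ≤ c * ‖v‖ ^ (-τ)) → v ∉ W := by
  refine ⟨⋃ c : ℕ, {x : Fin k → ℤ_[p] | {v : Fin k → ℤ | v ∈ W ∧
    dist x (fun i => (v i : ℤ_[p])) ≤ ((c : ℝ) + 1) * (max 1 ‖v‖) ^ (-τ)}.Infinite}, ?_, fun x hx c => ?_⟩
  · rw [dimH_iUnion]
    refine iSup_le fun c => ?_
    exact dimH_approx_c (X := Fin k → ℤ_[p]) (K := Fin k → ℤ) (fun v i => (v i : ℤ_[p])) W (fun v => max 1 ‖v‖)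
      (fun v => le_max_left _ _) hs hτ (thin_count hW) (by positivity)
  · obtain ⟨c', hc'⟩ := exists_nat_ge c
    have hfin : {v : Fin k → ℤ | v ∈ W ∧
        dist x (fun i => (v i : ℤ_[p])) ≤ ((c' : ℝ) + 1) * (max 1 ‖v‖) ^ (-τ)}.Finite := by
      by_contra hcon
      exact hx (Set.mem_iUnion.2 ⟨c', hcon⟩)
    obtain ⟨B, hB⟩ := (hfin.image (fun v : Fin k → ℤ => ‖v‖)).bddAbove
    refine ⟨max 1 (B + 1), fun v hv h1 hcon => ?_⟩
    have hv1 : 1 ≤ ‖v‖ := (le_max_left _ _).trans hv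
    have hv2 : B + 1 ≤ ‖v‖ := (le_max_right _ _).trans hv
    have : ‖v‖ ≤ B := hB ⟨v, ⟨hcon, ?_⟩, rfl⟩
    · linarith
    · rw [max_eq_right hv1]
      have h0 : (0 : ℝ) ≤ ‖v‖ ^ (-τ) := by positivity
      rw [dist_pi_le_iff (by positivity)]
      intro i
      rw [dist_eq_norm]
      refine (h1 i).trans (mul_le_mul_of_nonneg_right (by linarith) h0)

/-- the residues modulo `p ^ n` of a padic point are such vectors, with `τ = 1` and `c = 1` -/
lemma trunc_near (p : ℕ) [Fact p.Prime] {k : ℕ} (x : Fin k → ℤ_[p]) (n : ℕ) (i : Fin k) :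
    ‖x i - ((((x i).appr n : ℕ) : ℤ) : ℤ_[p])‖ ≤ (p : ℝ) ^ (-(n : ℤ)) := by
  have h := PadicInt.appr_spec n (x i)
  rw [← PadicInt.norm_le_pow_iff_mem_span_pow] at h
  simpa using h

/-- powers of `p` of a given size -/
lemma exists_pow {p : ℕ} (hp : p.Prime) {r : ℝ} (hr : 0 < r) :
    ∃ n : ℕ, ((p : ℝ) ^ n)⁻¹ ≤ r ∧ (p : ℝ) ^ n ≤ p * (1 + 1 / r) := by
  have hp1 : (1 : ℝ) < p := by exact_mod_cast hp.one_lt
  have hex : ∃ n : ℕ, ((p : ℝ) ^ n)⁻¹ ≤ r := by
    obtain ⟨n, hn⟩ := pow_unbounded_of_one_lt (1 / r) hp1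
    refine ⟨n, ?_⟩
    rw [inv_le_comm₀ (by positivity) hr, ← one_div]
    exact hn.le
  obtain ⟨n, hn⟩ : ∃ n, n = Nat.find hex := ⟨_, rfl⟩
  have h1 := Nat.find_spec hex
  rw [← hn] at h1
  refine ⟨n, h1, ?_⟩
  have hr1 : 0 < 1 / r := by positivity
  rcases Nat.eq_zero_or_pos n with h0 | h0
  · rw [h0, pow_zero]
    nlinarith
  · have h2 := Nat.find_min hex (m := n - 1) (by rw [← hn]; omega)
    rw [not_le] at h2
    have h3 : (p : ℝ) ^ (n - 1) < 1 / r := by
      rw [lt_one_div (by positivity) hr, one_div]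
      exact h2
    have h4 : (p : ℝ) ^ n = p * (p : ℝ) ^ (n - 1) := by
      conv_lhs => rw [← Nat.sub_add_cancel h0, pow_succ]
      ring
    rw [h4]
    apply mul_le_mul_of_nonneg_left _ (by linarith)
    linarith

end Pool.Agent.N575.PA
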